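import Mathlib

/-!
Summation of a decreasing function over a set of integers of bounded discrepancy, and the
discrepancy of the sets used (wheel modulo `210`).
-/

namespace Pool.Agent.MP_2543de_nt.Full

open Finset

lemma Ioc_succ {z M : ℕ} (h : z ≤ M) : Finset.Ioc z (M + 1) = insert (M + 1) (Finset.Ioc z M) := by
  ext x
  simp only [Finset.mem_Ioc, Finset.mem_insert]
  omega

/-- Abel summation in the form of an induction. -/
lemma disc_sum (P : ℕ → Prop) [DecidablePred P] (f : ℕ → ℝ) {ρ c : ℝ} (z : ℕ)
    (hf : ∀ m, z < m → f (m + 1) ≤ f m) (hf0 : ∀ m, z < m → 0 ≤ f m)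
    (h : ∀ M, z ≤ M → (((Finset.Ioc z M).filter P).card : ℝ) ≤ ρ * ((M : ℝ) - z) + c)
    (M : ℕ) (hM : z ≤ M) :
    ∑ m ∈ (Finset.Ioc z M).filter P, f m ≤ ρ * ∑ m ∈ Finset.Ioc z M, f m + c * f (z + 1) := by
  have key : ∀ M, z ≤ M → ∑ m ∈ (Finset.Ioc z M).filter P, f m ≤
      ρ * ∑ m ∈ Finset.Ioc z M, f m + c * f (z + 1) -
        (ρ * ((M : ℝ) - z) + c - ((Finset.Ioc z M).filter P).card) * f (M + 1) := by
    intro M hM
    induction M, hM using Nat.le_induction with
    | base => simp
    | succ M hM ih =>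
      have hs := h (M + 1) (by omega)
      have hmono := hf (M + 1) (by omega)
      have hnot : M + 1 ∉ Finset.Ioc z M := by simp
      rw [Ioc_succ hM, Finset.filter_insert, Finset.sum_insert hnot]
      rw [Ioc_succ hM, Finset.filter_insert] at hs
      by_cases hP : P (M + 1)
      · rw [if_pos hP] at hs ⊢
        have hnot' : M + 1 ∉ (Finset.Ioc z M).filter P := by simp
        rw [Finset.sum_insert hnot']
        rw [Finset.card_insert_of_notMem hnot'] at hs ⊢
        push_cast at hs ⊢
        nlinarith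
      · rw [if_neg hP] at hs ⊢
        push_cast at hs ⊢
        nlinarith
  have h1 := key M hM
  have h2 := h M hM
  have h3 := hf0 (M + 1) (by omega)
  have h4 : 0 ≤ (ρ * ((M : ℝ) - z) + c - ((Finset.Ioc z M).filter P).card) * f (M + 1) :=
    mul_nonneg (by linarith) h3
  linarith

lemma sum_inv_le (z M : ℕ) (hz : 1 ≤ z) (hM : z ≤ M) :
    ∑ m ∈ Finset.Ioc z M, (1 : ℝ) / m ≤ Real.log M - Real.log z := by
  induction M, hM using Nat.le_induction with
  | base => simp
  | succ M hM ih =>
    rw [Ioc_succ hM, Finset.sum_insert (by simp)]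
    have hM0 : (0 : ℝ) < M := by exact_mod_cast (by omega : 0 < M)
    have h1 : 1 - ((M + 1 : ℝ) / M)⁻¹ ≤ Real.log ((M + 1 : ℝ) / M) :=
      Real.one_sub_inv_le_log_of_pos (by positivity)
    rw [Real.log_div (by positivity) (by positivity)] at h1
    have h2 : 1 - ((M + 1 : ℝ) / M)⁻¹ = 1 / (M + 1) := by
      field_simp
      ring
    push_cast
    rw [h2] at h1
    linarith

lemma sum_inv_sq_le (z M : ℕ) (hz : 1 ≤ z) (hM : z ≤ M) :
    ∑ m ∈ Finset.Ioc z M, (1 : ℝ) / (m : ℝ) ^ 2 ≤ 1 / z - 1 / M := by
  induction M, hM using Nat.le_induction with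
  | base => simp
  | succ M hM ih =>
    rw [Ioc_succ hM, Finset.sum_insert (by simp)]
    have hM0 : (0 : ℝ) < M := by exact_mod_cast (by omega : 0 < M)
    have h1 : (1 : ℝ) / ((M + 1 : ℕ) : ℝ) ^ 2 ≤ 1 / M - 1 / ((M + 1 : ℕ) : ℝ) := by
      push_cast
      rw [div_sub_div _ _ (by positivity) (by positivity), div_le_div_iff₀ (by positivity)
        (by positivity)]
      nlinarith
    linarith

/-- Discrepancy for periodic sets. -/
lemma card_periodic (P : ℕ → Prop) [DecidablePred P] (W : ℕ) (hper : ∀ m, P (m + W) ↔ P m)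
    (q s : ℕ) : ((Finset.Ioc 0 (W * q + s)).filter P).card =
      Nat.count P W * q + ((Finset.Ioc 0 s).filter P).card := by
  have hp : Function.Periodic P W := fun m => propext (hper m)
  induction q with
  | zero => simp
  | succ q ih =>
    have e : Finset.Ioc 0 (W * (q + 1) + s) =
        Finset.Ioc 0 (W * q + s) ∪ Finset.Ico (W * q + s + 1) (W * q + s + 1 + W) := by
      ext x
      simp only [Finset.mem_Ioc, Finset.mem_union, Finset.mem_Ico]
      have : W * (q + 1) = W * q + W := by ring
      omega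
    rw [e, Finset.filter_union, Finset.card_union_of_disjoint, ih,
      Nat.filter_Ico_card_eq_of_periodic _ _ _ hp]
    · ring
    · rw [Finset.disjoint_left]
      intro x hx hy
      have h1 := Finset.mem_Ioc.1 (Finset.mem_filter.1 hx).1
      have h2 := Finset.mem_Ico.1 (Finset.mem_filter.1 hy).1
      omega

lemma card_disc (P : ℕ → Prop) [DecidablePred P] (hper : ∀ m, P (m + 210) ↔ P m)
    (h48 : Nat.count P 210 = 48) (B : ℕ)
    (hB : ∀ s < 210, 210 * ((Finset.Ioc 0 s).filter P).card ≤ 48 * s + B) (M : ℕ) :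
    210 * ((Finset.Ioc 0 M).filter P).card ≤ 48 * M + B := by
  have h1 := card_periodic P 210 hper (M / 210) (M % 210)
  rw [Nat.div_add_mod, h48] at h1
  have h2 := hB (M % 210) (Nat.mod_lt _ (by norm_num))
  omega

lemma card_disc_lower (P : ℕ → Prop) [DecidablePred P] (hper : ∀ m, P (m + 210) ↔ P m)
    (h48 : Nat.count P 210 = 48) (B : ℕ)
    (hB : ∀ s < 210, 48 * s ≤ 210 * ((Finset.Ioc 0 s).filter P).card + B) (M : ℕ) :
    48 * M ≤ 210 * ((Finset.Ioc 0 M).filter P).card + B := by
  have h1 := card_periodic P 210 hper (M / 210) (M % 210)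
  rw [Nat.div_add_mod, h48] at h1
  have h2 := hB (M % 210) (Nat.mod_lt _ (by norm_num))
  omega

/-- The running check. `run Q B i c n`: for the next `n` integers after `i`, with `c` hits so
far, the discrepancy stays at most `B`. -/
def run (Q : ℕ → Bool) (B : ℕ) : ℕ → ℕ → ℕ → Bool
  | 0, _, _ => true
  | n + 1, i, c =>
    let c' := if Q (i + 1) then c + 1 else c
    Nat.ble (210 * c') (48 * (i + 1) + B) && run Q B n (i + 1) c'

lemma run_spec (Q : ℕ → Bool) (B : ℕ) : ∀ n i c, run Q B n i c = true →
    c = ((Finset.Ioc 0 i).filter (fun m => Q m = true)).card →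
    ∀ s, i < s → s ≤ i + n →
      210 * ((Finset.Ioc 0 s).filter (fun m => Q m = true)).card ≤ 48 * s + B := by
  intro n
  induction n with
  | zero => intro i c _ _ s h1 h2; omega
  | succ n ih =>
    intro i c h hc s h1 h2
    rw [run, Bool.and_eq_true] at h
    obtain ⟨ha, hb⟩ := h
    have hc' : (if Q (i + 1) then c + 1 else c) =
        ((Finset.Ioc 0 (i + 1)).filter (fun m => Q m = true)).card := by
      rw [Ioc_succ (Nat.zero_le i), Finset.filter_insert]
      by_cases hQ : Q (i + 1) = true
      · rw [if_pos hQ, if_pos hQ, Finset.card_insert_of_notMem (by simp), hc]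
      · rw [if_neg hQ, if_neg hQ, hc]
    rcases Nat.lt_or_ge (i + 1) s with h3 | h3
    · exact ih (i + 1) _ hb hc' s h3 (by omega)
    · have : s = i + 1 := by omega
      subst this
      rw [← hc']
      exact Nat.le_of_ble_eq_true ha

/-- The running lower check. -/
def runL (Q : ℕ → Bool) (B : ℕ) : ℕ → ℕ → ℕ → Bool
  | 0, _, _ => true
  | n + 1, i, c =>
    let c' := if Q (i + 1) then c + 1 else c
    Nat.ble (48 * (i + 1)) (210 * c' + B) && runL Q B n (i + 1) c'

lemma runL_spec (Q : ℕ → Bool) (B : ℕ) : ∀ n i c, runL Q B n i c = true →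
    c = ((Finset.Ioc 0 i).filter (fun m => Q m = true)).card →
    ∀ s, i < s → s ≤ i + n →
      48 * s ≤ 210 * ((Finset.Ioc 0 s).filter (fun m => Q m = true)).card + B := by
  intro n
  induction n with
  | zero => intro i c _ _ s h1 h2; omega
  | succ n ih =>
    intro i c h hc s h1 h2
    rw [runL, Bool.and_eq_true] at h
    obtain ⟨ha, hb⟩ := h
    have hc' : (if Q (i + 1) then c + 1 else c) =
        ((Finset.Ioc 0 (i + 1)).filter (fun m => Q m = true)).card := by
      rw [Ioc_succ (Nat.zero_le i), Finset.filter_insert]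
      by_cases hQ : Q (i + 1) = true
      · rw [if_pos hQ, if_pos hQ, Finset.card_insert_of_notMem (by simp), hc]
      · rw [if_neg hQ, if_neg hQ, hc]
    rcases Nat.lt_or_ge (i + 1) s with h3 | h3
    · exact ih (i + 1) _ hb hc' s h3 (by omega)
    · have : s = i + 1 := by omega
      subst this
      rw [← hc']
      exact Nat.le_of_ble_eq_true ha

/-- The integers allowed: `1 + a k` coprime to `210`. -/
def al (a k : ℕ) : Bool := Nat.beq (Nat.gcd (1 + a * k) 210) 1

/-- coprime to `210`. -/
def co (k : ℕ) : Bool := Nat.beq (Nat.gcd k 210) 1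

lemma al_iff (a k : ℕ) : al a k = true ↔ Nat.Coprime (1 + a * k) 210 := by
  unfold al Nat.Coprime
  exact ⟨Nat.eq_of_beq_eq_true, fun h => by rw [h]; rfl⟩

lemma co_iff (k : ℕ) : co k = true ↔ Nat.Coprime k 210 := by
  unfold co Nat.Coprime
  exact ⟨Nat.eq_of_beq_eq_true, fun h => by rw [h]; rfl⟩

def allClasses (Q : ℕ → Bool) : ℕ → Bool
  | 0 => true
  | a + 1 => (!(co a) || Q a) && allClasses Q a

lemma allClasses_spec (Q : ℕ → Bool) : ∀ n, allClasses Q n = true → ∀ a < n, co a = true →
    Q a = true := by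
  intro n
  induction n with
  | zero => intro _ a ha; omega
  | succ n ih =>
    intro h a ha hco
    rw [allClasses, Bool.and_eq_true] at h
    obtain ⟨h1, h2⟩ := h
    rcases Nat.lt_or_ge a n with h3 | h3
    · exact ih h2 a h3 hco
    · have : a = n := by omega
      subst this
      rw [hco] at h1
      simpa using h1

lemma al_check : allClasses (fun a => run (al a) 426 210 0 0) 210 = true := by
  decide +kernel

lemma al_count : allClasses (fun a => Nat.beq (Nat.count (fun k => al a k = true) 210) 48) 210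
    = true := by
  decide +kernel

lemma co_check : run co 318 210 0 0 = true := by decide +kernel

lemma co_checkL : runL co 318 210 0 0 = true := by decide +kernel

lemma co_count : Nat.count (fun k => co k = true) 210 = 48 := by decide +kernel

end Pool.Agent.MP_2543de_nt.Full
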