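import Pool.Agent.Lib.MP_2543de_nt.Bad
import Pool.Agent.Lib.MP_2543de_nt.Full.Disc

namespace Pool.Agent.MP_2543de_nt.Full

open Finset

/-- the primes in `(z, Y)` -/
def Pr (z Y : ℕ) : Finset ℕ := (Finset.Ico (z + 1) Y).filter Nat.Prime

/-- the `k` such that `1 + p k` is coprime to `210` -/
def Ks (p M : ℕ) : Finset ℕ := (Finset.Ioc 0 M).filter (fun k => al p k = true)

/-- cofactors -/
def Rs (M : ℕ) : Finset ℕ := (Finset.Ioc 0 M).filter (fun r => r = 1 ∨ (53 < r ∧ co r = true))

/-- The number of `j` in a subset `G` of an interval of length `K`, whose members `2 D j + e`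
have no prime factor up to `z`, for which `2 D j + e` is not cyclic. -/
lemma bad_card {D e a K Y z : ℕ} (he : Nat.Coprime e (2 * D)) (hz53 : 53 ≤ z)
    (G : Finset ℕ) (hG : G ⊆ Finset.Ico a (a + K))
    (hz : ∀ j ∈ G, ∀ p, p.Prime → p ≤ z → ¬ p ∣ 2 * D * j + e)
    (hY : ∀ j ∈ G, 0 < 2 * D * j + e ∧ 2 * D * j + e < Y ^ 2) :
    (G.filter (fun j => ¬ IsCyc (2 * D * j + e))).card ≤
      ∑ p ∈ Pr z Y,
        ((K / p ^ 2 + 1) + ∑ k ∈ Ks p (Y / p), (K / (p * (1 + p * k)) + 1)
          + ∑ r ∈ Rs (Y / p), (K / (p ^ 2 * r) + 1)) := by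
  classical
  set J := Finset.Ico a (a + K) with hJ
  set A : ℕ → Finset ℕ := fun p => J.filter (fun j => p ^ 2 ∣ 2 * D * j + e) with hA
  set B : ℕ → ℕ → Finset ℕ :=
    fun p k => J.filter (fun j => p * (1 + p * k) ∣ 2 * D * j + e) with hB
  set C : ℕ → ℕ → Finset ℕ :=
    fun p r => J.filter (fun j => 2 * D * j + e ≡ p * r [MOD p ^ 2 * r]) with hC
  set P := Pr z Y with hP
  -- covering
  have hcov : G.filter (fun j => ¬ IsCyc (2 * D * j + e)) ⊆
      P.biUnion (fun p => A p ∪ (Ks p (Y / p)).biUnion (B p) ∪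
        (Rs (Y / p)).biUnion (C p)) := by
    intro j hj
    obtain ⟨hjG, hnc⟩ := Finset.mem_filter.1 hj
    have hjJ : j ∈ J := hG hjG
    obtain ⟨hpos, hlt⟩ := hY j hjG
    have hsm := hz j hjG
    set m := 2 * D * j + e with hm
    -- divisors of m are coprime to 210
    have hsmall : ∀ p, p.Prime → p ∣ m → z < p := by
      intro p hp hpm
      by_contra hcon
      exact hsm p hp (by omega) hpm
    have hcop210 : ∀ r, r ∣ m → Nat.Coprime r 210 := by
      intro r hr
      rw [show (210 : ℕ) = 2 * 3 * 5 * 7 by norm_num]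
      have h : ∀ p, p.Prime → p ≤ 53 → Nat.Coprime r p := fun p hp hp53 =>
        Nat.Coprime.symm ((Nat.Prime.coprime_iff_not_dvd hp).2
          (fun h => hsm p hp (by omega) (h.trans hr)))
      exact (((h 2 (by norm_num) (by norm_num)).mul_right
        (h 3 (by norm_num) (by norm_num))).mul_right
        (h 5 (by norm_num) (by norm_num))).mul_right (h 7 (by norm_num) (by norm_num))
    obtain ⟨p, hp, hpm, hcase⟩ := exists_of_not_isCyc hpos hnc
    have hpz : z + 1 ≤ p := hsmall p hp hpm
    rw [Finset.mem_biUnion]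
    rcases hcase with hsq | ⟨q, hq, hqm, hpq⟩
    · have hle : p ^ 2 ≤ m := Nat.le_of_dvd hpos hsq
      have hpY : p < Y := lt_of_pow_lt_pow_left₀ 2 (Nat.zero_le _) (lt_of_le_of_lt hle hlt)
      refine ⟨p, Finset.mem_filter.2 ⟨Finset.mem_Ico.2 ⟨hpz, hpY⟩, hp⟩, ?_⟩
      apply Finset.mem_union_left
      apply Finset.mem_union_left
      exact Finset.mem_filter.2 ⟨hjJ, hsq⟩
    · have hq1 : 0 < q - 1 := by have := hq.two_le; omega
      have hplt : p < q := by
        have := Nat.le_of_dvd hq1 hpq
        omega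
      have hcpq : Nat.Coprime p q := (Nat.coprime_primes hp hq).2 hplt.ne
      have hpqm : p * q ∣ m := hcpq.mul_dvd_of_dvd_of_dvd hpm hqm
      have hpql : p * q ≤ m := Nat.le_of_dvd hpos hpqm
      have hpY : p < Y := by
        by_contra hcon
        push Not at hcon
        have : Y ^ 2 ≤ p * q := by
          rw [pow_two]
          exact Nat.mul_le_mul hcon (le_trans hcon hplt.le)
        omega
      obtain ⟨k, hk⟩ := hpq
      have hqk : q = 1 + p * k := by omega
      have hkpos : 0 < k := by
        rcases Nat.eq_zero_or_pos k with h | h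
        · subst h; omega
        · exact h
      refine ⟨p, Finset.mem_filter.2 ⟨Finset.mem_Ico.2 ⟨hpz, hpY⟩, hp⟩, ?_⟩
      by_cases hqY : q ≤ Y
      · apply Finset.mem_union_left
        apply Finset.mem_union_right
        rw [Finset.mem_biUnion]
        refine ⟨k, Finset.mem_filter.2 ⟨Finset.mem_Ioc.2 ⟨hkpos, ?_⟩, ?_⟩, ?_⟩
        · rw [Nat.le_div_iff_mul_le hp.pos, mul_comm]
          omega
        · rw [al_iff, ← hqk]
          exact hcop210 q hqm
        · refine Finset.mem_filter.2 ⟨hjJ, ?_⟩
          rw [← hqk]; exact hpqm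
      · apply Finset.mem_union_right
        rw [Finset.mem_biUnion]
        obtain ⟨r, hr⟩ := hpqm
        have hrpos : 0 < r := by
          rcases Nat.eq_zero_or_pos r with h | h
          · subst h; omega
          · exact h
        have hrm : r ∣ m := ⟨p * q, by rw [hr]; ring⟩
        refine ⟨r, Finset.mem_filter.2 ⟨Finset.mem_Ioc.2 ⟨hrpos, ?_⟩, ?_⟩, ?_⟩
        · rw [Nat.le_div_iff_mul_le hp.pos]
          by_contra hcon
          push Not at hcon hqY
          have h1 : Y * Y ≤ (r * p) * q := Nat.mul_le_mul hcon.le hqY.le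
          have h2 : (r * p) * q = p * q * r := by ring
          rw [h2, ← hr, ← pow_two] at h1
          omega
        · by_cases hr1 : r = 1
          · exact Or.inl hr1
          · right
            refine ⟨?_, (co_iff r).2 (hcop210 r hrm)⟩
            have h1 : z < r.minFac := hsmall _ (Nat.minFac_prime hr1) ((Nat.minFac_dvd r).trans hrm)
            have h2 := Nat.minFac_le hrpos
            omega
        · refine Finset.mem_filter.2 ⟨hjJ, ?_⟩
          have h3 : 2 * D * j + e = p * r + (p ^ 2 * r) * k := by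
            rw [← hm, hr, hqk]; ring
          rw [h3]
          simp [Nat.ModEq]
  -- cardinalities
  have hAc : ∀ p, (A p).card ≤ K / p ^ 2 + 1 := by
    intro p
    apply card_le_of_modEq (a := a) _ (Finset.filter_subset _ _)
    · intro x hx y hy
      have hx' := (Finset.mem_filter.1 hx).2
      have hy' := (Finset.mem_filter.1 hy).2
      have hcop : Nat.Coprime (p ^ 2) (2 * D) :=
        Nat.Coprime.coprime_dvd_left hx' (coprime_linear he)
      apply modEq_of_linear (e := e) hcop
      exact ((Nat.modEq_zero_iff_dvd).2 hx').trans ((Nat.modEq_zero_iff_dvd).2 hy').symm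
  have hBc : ∀ p k, (B p k).card ≤ K / (p * (1 + p * k)) + 1 := by
    intro p k
    apply card_le_of_modEq (a := a) _ (Finset.filter_subset _ _)
    · intro x hx y hy
      have hx' := (Finset.mem_filter.1 hx).2
      have hy' := (Finset.mem_filter.1 hy).2
      have hcop : Nat.Coprime (p * (1 + p * k)) (2 * D) :=
        Nat.Coprime.coprime_dvd_left hx' (coprime_linear he)
      apply modEq_of_linear (e := e) hcop
      exact ((Nat.modEq_zero_iff_dvd).2 hx').trans ((Nat.modEq_zero_iff_dvd).2 hy').symm
  have hCc : ∀ p r, (C p r).card ≤ K / (p ^ 2 * r) + 1 := by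
    intro p r
    apply card_le_of_modEq (a := a) _ (Finset.filter_subset _ _)
    · intro x hx y hy
      have hx' := (Finset.mem_filter.1 hx).2
      have hy' := (Finset.mem_filter.1 hy).2
      have hdvd : p * r ∣ 2 * D * x + e := by
        have h1 : p * r ∣ p ^ 2 * r := ⟨p, by ring⟩
        exact ((hx'.of_dvd h1).dvd_iff (dvd_refl _)).2 (dvd_refl _)
      have hc1 : Nat.Coprime (p * r) (2 * D) :=
        Nat.Coprime.coprime_dvd_left hdvd (coprime_linear he)
      have hcp : Nat.Coprime p (2 * D) := Nat.Coprime.coprime_dvd_left (dvd_mul_right p r) hc1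
      have hcop : Nat.Coprime (p ^ 2 * r) (2 * D) := by
        rw [show p ^ 2 * r = p * (p * r) by ring]
        exact Nat.Coprime.mul_left hcp hc1
      apply modEq_of_linear (e := e) hcop
      exact hx'.trans hy'.symm
  calc (G.filter (fun j => ¬ IsCyc (2 * D * j + e))).card
      ≤ (P.biUnion (fun p => A p ∪ (Ks p (Y / p)).biUnion (B p) ∪
        (Rs (Y / p)).biUnion (C p))).card := Finset.card_le_card hcov
    _ ≤ ∑ p ∈ P, (A p ∪ (Ks p (Y / p)).biUnion (B p) ∪
        (Rs (Y / p)).biUnion (C p)).card := Finset.card_biUnion_le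
    _ ≤ _ := by
        apply Finset.sum_le_sum
        intro p _
        refine le_trans (Finset.card_union_le _ _) ?_
        refine add_le_add (le_trans (Finset.card_union_le _ _) ?_) ?_
        · refine add_le_add (hAc p) (le_trans Finset.card_biUnion_le ?_)
          exact Finset.sum_le_sum (fun t _ => hBc p t)
        · exact le_trans Finset.card_biUnion_le (Finset.sum_le_sum (fun r _ => hCc p r))

end Pool.Agent.MP_2543de_nt.Full
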