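import Pool.Agent.Lib.MP_2543de_nt.Basic

/-!
Certificates for cousin pairs: numbers below `2^60` which are products of at most two primes are
recognised by a greatest common divisor with the product of the primes below `2^20`.
-/

namespace Pool.Agent.MP_2543de_nt.Full

open Finset

/-- evaluate the argument first -/
noncomputable def force {α : Type} (n : ℕ) (f : ℕ → α) : α :=
  Nat.rec (f 0) (fun m _ => f (Nat.succ m)) n

lemma force_eq {α : Type} (n : ℕ) (f : ℕ → α) : force n f = f n := by
  cases n <;> rfl

/-- conjunction -/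
noncomputable def band (a b : Bool) : Bool := Bool.rec false b a

lemma band_iff {a b : Bool} : band a b = true ↔ a = true ∧ b = true := by
  cases a <;> cases b <;> simp [band]

/-- if-then-else -/
noncomputable def bite (c a b : Bool) : Bool := Bool.rec b a c

lemma bite_true {a b : Bool} : bite true a b = a := rfl
lemma bite_false {a b : Bool} : bite false a b = b := rfl

/-- the test for `c` with `G = gcd P c`, `T` the product of the primes below `2^10` -/
noncomputable def okAux (T G c : ℕ) : Bool :=
  bite (Nat.beq G 1) (Nat.ble c 1099511627775)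
    (band (Nat.beq (Nat.gcd G T) 1) (band (Nat.ble G 1048575)
      (bite (Nat.beq G c) true
        (force (c / G) (fun p => band (Nat.ble p 1099511627775) (Nat.ble 2 (p % G)))))))

noncomputable def okc (T P c : ℕ) : Bool := force (Nat.gcd P c) (fun G => okAux T G c)

lemma prime_of_no_small {c B : ℕ} (hc1 : c ≠ 1) (hc0 : 0 < c) (hcB : c < B ^ 2)
    (h : ∀ q, q.Prime → q < B → ¬ q ∣ c) : c.Prime := by
  by_contra hnp
  have h1 : c.minFac ^ 2 ≤ c := Nat.minFac_sq_le_self hc0 hnp
  have h2 := Nat.minFac_prime hc1
  have h3 : c.minFac < B := lt_of_pow_lt_pow_left₀ 2 (Nat.zero_le _) (lt_of_le_of_lt h1 hcB)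
  exact h _ h2 h3 (Nat.minFac_dvd c)

lemma isCyc_mul {q p : ℕ} (hq : q.Prime) (hp : p.Prime) (hqp : q < p) (h : ¬ q ∣ p - 1) :
    IsCyc (q * p) := by
  refine ⟨Nat.mul_pos hq.pos hp.pos, ?_⟩
  have hcop : Nat.Coprime q p := (Nat.coprime_primes hq hp).2 hqp.ne
  rw [Nat.totient_mul hcop, Nat.totient_prime hq, Nat.totient_prime hp]
  have hq2 := hq.two_le
  have hp2 := hp.two_le
  apply Nat.Coprime.mul_left
  · apply Nat.Coprime.mul_right
    · rw [Nat.Prime.coprime_iff_not_dvd hq]
      intro hd
      have := Nat.le_of_dvd (by omega) hd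
      omega
    · exact (Nat.Prime.coprime_iff_not_dvd hq).2 h
  · apply Nat.Coprime.mul_right
    · rw [Nat.Prime.coprime_iff_not_dvd hp]
      intro hd
      have := Nat.le_of_dvd (by omega) hd
      omega
    · rw [Nat.Prime.coprime_iff_not_dvd hp]
      intro hd
      have := Nat.le_of_dvd (by omega) hd
      omega

lemma okc_spec {T P c : ℕ} (hT : ∀ q, q.Prime → q < 2 ^ 10 → q ∣ T)
    (hP : ∀ q, q.Prime → q < 2 ^ 20 → q ∣ P) (hc : 0 < c) (h : okc T P c = true) :
    IsCyc c := by
  unfold okc at h
  rw [force_eq] at h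
  unfold okAux at h
  set G := Nat.gcd P c with hG
  by_cases hG1 : G = 1
  · rw [hG1] at h
    have h' : Nat.ble c 1099511627775 = true := h
    have h2 := Nat.le_of_ble_eq_true h'
    by_cases hc1 : c = 1
    · subst hc1
      exact ⟨one_pos, by decide⟩
    · apply isCyc_of_prime
      apply prime_of_no_small (B := 2 ^ 20) hc1 hc (by omega)
      intro q hq hqB hqc
      have h3 : q ∣ G := Nat.dvd_gcd (hP q hq hqB) hqc
      rw [hG1] at h3
      exact hq.one_lt.ne' (Nat.dvd_one.1 h3)
  · have hb : Nat.beq G 1 = false := by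
      cases hh : Nat.beq G 1
      · rfl
      · exact absurd (Nat.eq_of_beq_eq_true hh) hG1
    rw [hb, bite_false, band_iff, band_iff] at h
    obtain ⟨h1, h2, h3⟩ := h
    have h1' := Nat.eq_of_beq_eq_true h1
    have h2' := Nat.le_of_ble_eq_true h2
    have hGc : G ∣ c := Nat.gcd_dvd_right P c
    have hG0 : 0 < G := Nat.pos_of_dvd_of_pos hGc hc
    have hGp : G.Prime := by
      apply prime_of_no_small (B := 2 ^ 10) hG1 hG0 (by omega)
      intro q hq hqB hqG
      have h3 : q ∣ Nat.gcd G T := Nat.dvd_gcd hqG (hT q hq hqB)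
      rw [h1'] at h3
      exact hq.one_lt.ne' (Nat.dvd_one.1 h3)
    by_cases hGc' : G = c
    · rw [← hGc']; exact isCyc_of_prime hGp
    · have hb : Nat.beq G c = false := by
        cases hh : Nat.beq G c
        · rfl
        · exact absurd (Nat.eq_of_beq_eq_true hh) hGc'
      rw [hb, bite_false, force_eq, band_iff] at h3
      obtain ⟨h4, h5⟩ := h3
      have h4' := Nat.le_of_ble_eq_true h4
      have h5' := Nat.le_of_ble_eq_true h5
      set p := c / G with hp
      have hcp : c = G * p := (Nat.mul_div_cancel' hGc).symm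
      have hp0 : 0 < p := by
        rcases Nat.eq_zero_or_pos p with h | h
        · rw [h] at h5'; simp at h5'
        · exact h
      have hG2 := hGp.two_le
      have hnd : ¬ G ∣ p := by
        intro hd
        rw [Nat.mod_eq_zero_of_dvd hd] at h5'
        omega
      have hp1 : p ≠ 1 := by
        intro h
        rw [h] at h5'
        have := Nat.mod_eq_of_lt (show 1 < G by omega)
        omega
      have hsm : ∀ q, q.Prime → q < 2 ^ 20 → ¬ q ∣ p := by
        intro q hq hqB hqp
        have h6 : q ∣ G := Nat.dvd_gcd (hP q hq hqB) (by rw [hcp]; exact dvd_mul_of_dvd_right hqp _)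
        have h7 := (Nat.prime_dvd_prime_iff_eq hq hGp).1 h6
        rw [h7] at hqp
        exact hnd hqp
      have hpp : p.Prime := prime_of_no_small (B := 2 ^ 20) hp1 hp0 (by omega) hsm
      have hGlt : G < p := by
        by_contra hcon
        push Not at hcon
        exact hsm p hpp (by omega) (dvd_refl p)
      rw [hcp]
      apply isCyc_mul hGp hpp hGlt
      intro hd
      have h8 : p % G = 1 := by
        have h9 : p = (p - 1) + 1 := by omega
        rw [h9, Nat.add_mod, Nat.mod_eq_zero_of_dvd hd, Nat.zero_add, Nat.mod_mod]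
        exact Nat.mod_eq_of_lt (by omega)
      omega

/-- the check of one `n` with offset `u` -/
noncomputable def chkn (T P n u : ℕ) : Bool :=
  force (n ^ 3) (fun t => force (t + (7 + 17 * t) % 18 + 18 * u) (fun c =>
    band (Nat.ble (Nat.succ t) c) (band (Nat.ble (c + 5) ((n + 1) ^ 3))
      (band (okc T P c) (force (c + 4) (fun c' => okc T P c'))))))

lemma chkn_spec {T P n u : ℕ} (hT : ∀ q, q.Prime → q < 2 ^ 10 → q ∣ T)
    (hP : ∀ q, q.Prime → q < 2 ^ 20 → q ∣ P) (h : chkn T P n u = true) :
    1 ≤ cousinCount n := by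
  unfold chkn at h
  rw [force_eq, force_eq] at h
  set c := n ^ 3 + (7 + 17 * n ^ 3) % 18 + 18 * u with hc
  rw [band_iff, band_iff, band_iff, force_eq] at h
  obtain ⟨h1, h2, h3, h4⟩ := h
  have h1' := Nat.le_of_ble_eq_true h1
  have h2' := Nat.le_of_ble_eq_true h2
  have hmod : c % 18 = 7 := by omega
  have hc3 := okc_spec hT hP (by omega) h3
  have hc4 := okc_spec hT hP (by omega) h4
  have h := card_le_cousinCount (n := n) {c} (by
    intro m hm
    rw [Finset.mem_singleton] at hm
    subst hm
    refine ⟨h1', by omega, hc3, hc4, ?_, ?_, ?_⟩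
    · exact not_isCyc_even (by omega) (by omega)
    · exact not_isCyc_nine (by omega)
    · exact not_isCyc_even (by omega) (by omega))
  simpa using h

/-- `k` consecutive `n` with offsets the digits of `d` in base `4096`. -/
noncomputable def chunk (T P k : ℕ) : ℕ → ℕ → Bool :=
  Nat.rec (fun _ _ => true) (fun _ ih n d =>
    band (chkn T P n (d % 4096)) (force (Nat.succ n) (fun n' => force (d / 4096) (fun d' =>
      ih n' d')))) k

lemma chunk_spec {T P : ℕ} (hT : ∀ q, q.Prime → q < 2 ^ 10 → q ∣ T)
    (hP : ∀ q, q.Prime → q < 2 ^ 20 → q ∣ P) : ∀ k n d, chunk T P k n d = true →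
    ∀ m, n ≤ m → m < n + k → 1 ≤ cousinCount m := by
  intro k
  induction k with
  | zero => intro n d _ m h1 h2; omega
  | succ k ih =>
    intro n d h m h1 h2
    have h' : band (chkn T P n (d % 4096)) (force (Nat.succ n) (fun n' => force (d / 4096)
      (fun d' => chunk T P k n' d'))) = true := h
    rw [band_iff, force_eq, force_eq] at h'
    rcases Nat.lt_or_ge n m with h3 | h3
    · exact ih (Nat.succ n) _ h'.2 m h3 (by omega)
    · have : m = n := by omega
      subst this
      exact chkn_spec hT hP h'.1

/-- a list of chunks of length `k` -/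
noncomputable def chunks (T P k : ℕ) (L : List ℕ) : ℕ → Bool :=
  List.rec (fun _ => true) (fun d _ ih n => band (chunk T P k n d) (force (n + k) ih)) L

lemma chunks_spec {T P : ℕ} (hT : ∀ q, q.Prime → q < 2 ^ 10 → q ∣ T)
    (hP : ∀ q, q.Prime → q < 2 ^ 20 → q ∣ P) (k : ℕ) : ∀ L n, chunks T P k L n = true →
    ∀ m, n ≤ m → m < n + k * L.length → 1 ≤ cousinCount m := by
  intro L
  induction L with
  | nil => intro n _ m h1 h2; simp at h2; omega
  | cons d L ih =>
    intro n h m h1 h2
    have h' : band (chunk T P k n d) (force (n + k) (chunks T P k L)) = true := h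
    rw [band_iff, force_eq] at h'
    rcases Nat.lt_or_ge m (n + k) with h3 | h3
    · exact chunk_spec hT hP k n d h'.1 m h1 h3
    · apply ih (n + k) h'.2 m h3
      rw [List.length_cons] at h2
      have : k * (L.length + 1) = k * L.length + k := by ring
      omega

end Pool.Agent.MP_2543de_nt.Full
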