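import Pool.Agent.Lib.MP_2543de_nt.Full.Real

namespace Pool.Agent.MP_2543de_nt.Full

open Finset

lemma base_count (a K m b : ℕ) (hm : 0 < m) :
    |(((Finset.Ico a (a + K)).filter (fun j => j ≡ b [MOD m])).card : ℝ) - (K : ℝ) / m| ≤ 1 := by
  have h := Nat.Ico_filter_modEq_card a (a + K) hm b
  have hm' : (0 : ℚ) < m := by exact_mod_cast hm
  set A : ℤ := ⌈(((a + K : ℕ) : ℚ) - b) / (m : ℚ)⌉ with hA
  set B : ℤ := ⌈((a : ℚ) - b) / (m : ℚ)⌉ with hB
  have a1 : (((a + K : ℕ) : ℚ) - b) / (m : ℚ) ≤ A := Int.le_ceil _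
  have a2 : (A : ℚ) < (((a + K : ℕ) : ℚ) - b) / (m : ℚ) + 1 := Int.ceil_lt_add_one _
  have b1 : ((a : ℚ) - b) / (m : ℚ) ≤ B := Int.le_ceil _
  have b2 : (B : ℚ) < ((a : ℚ) - b) / (m : ℚ) + 1 := Int.ceil_lt_add_one _
  have e : (((a + K : ℕ) : ℚ) - b) / (m : ℚ) = ((a : ℚ) - b) / (m : ℚ) + (K : ℚ) / m := by
    push_cast; ring
  rw [e] at a1 a2
  have hK : (0 : ℚ) ≤ (K : ℚ) / m := by positivity
  have hq : |(((Finset.Ico a (a + K)).filter (fun j => j ≡ b [MOD m])).card : ℚ) -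
      (K : ℚ) / m| ≤ 1 := by
    have h' : (((Finset.Ico a (a + K)).filter (fun j => j ≡ b [MOD m])).card : ℚ) =
        max ((A : ℚ) - B) 0 := by
      have h2 : ((((Finset.Ico a (a + K)).filter (fun j => j ≡ b [MOD m])).card : ℤ) : ℚ) =
          ((max (A - B) 0 : ℤ) : ℚ) := by rw [h]
      push_cast at h2
      exact h2
    rw [h', abs_le]
    constructor
    · have := le_max_left ((A : ℚ) - B) 0
      linarith
    · rw [sub_le_iff_le_add]
      apply max_le
      · linarith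
      · linarith
  have h3 : ((|(((Finset.Ico a (a + K)).filter (fun j => j ≡ b [MOD m])).card : ℚ) -
      (K : ℚ) / m| : ℚ) : ℝ) ≤ ((1 : ℚ) : ℝ) := by exact_mod_cast hq
  push_cast at h3
  exact h3

/-- Two residue classes removed for each prime of `S`. -/
lemma sieve_count (a K : ℕ) (b1 b2 : ℕ → ℕ) (S : Finset ℕ) :
    (∀ p ∈ S, p.Prime) → (∀ p ∈ S, ¬ b1 p ≡ b2 p [MOD p]) →
    ∀ m, 0 < m → (∀ p ∈ S, Nat.Coprime m p) → ∀ b,
    |(((Finset.Ico a (a + K)).filter (fun j => j ≡ b [MOD m] ∧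
      ∀ p ∈ S, ¬ j ≡ b1 p [MOD p] ∧ ¬ j ≡ b2 p [MOD p])).card : ℝ) -
      (K : ℝ) / m * ∏ p ∈ S, (1 - 2 / (p : ℝ))| ≤ 3 ^ S.card := by
  classical
  induction S using Finset.induction_on with
  | empty =>
    intro _ _ m hm _ b
    simpa using base_count a K m b hm
  | insert q S hq ih =>
    intro hS h12 m hm hc b
    have hqp : q.Prime := hS q (Finset.mem_insert_self _ _)
    have hS' : ∀ p ∈ S, p.Prime := fun p hp => hS p (Finset.mem_insert_of_mem hp)
    have h12' : ∀ p ∈ S, ¬ b1 p ≡ b2 p [MOD p] := fun p hp => h12 p (Finset.mem_insert_of_mem hp)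
    have hmq : Nat.Coprime m q := hc q (Finset.mem_insert_self _ _)
    have hc' : ∀ p ∈ S, Nat.Coprime m p := fun p hp => hc p (Finset.mem_insert_of_mem hp)
    have hcq : ∀ p ∈ S, Nat.Coprime (m * q) p := fun p hp =>
      Nat.Coprime.mul_left (hc' p hp) ((Nat.coprime_primes hqp (hS' p hp)).2
        (fun h => hq (h ▸ hp)))
    set J := Finset.Ico a (a + K) with hJ
    set F : Finset ℕ := J.filter (fun j => j ≡ b [MOD m] ∧
      ∀ p ∈ S, ¬ j ≡ b1 p [MOD p] ∧ ¬ j ≡ b2 p [MOD p]) with hF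
    set F1 := F.filter (fun j => j ≡ b1 q [MOD q]) with hF1
    set F2 := F.filter (fun j => j ≡ b2 q [MOD q]) with hF2
    set F0 := J.filter (fun j => j ≡ b [MOD m] ∧
      ∀ p ∈ insert q S, ¬ j ≡ b1 p [MOD p] ∧ ¬ j ≡ b2 p [MOD p]) with hF0
    have hcrt : ∀ c : ℕ, F.filter (fun j => j ≡ c [MOD q]) =
        J.filter (fun j => j ≡ (Nat.chineseRemainder hmq b c : ℕ) [MOD m * q] ∧
          ∀ p ∈ S, ¬ j ≡ b1 p [MOD p] ∧ ¬ j ≡ b2 p [MOD p]) := by
      intro c
      have hcr := (Nat.chineseRemainder hmq b c).2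
      ext j
      simp only [hF, Finset.mem_filter]
      constructor
      · rintro ⟨⟨hj, hjb, hjS⟩, hjc⟩
        exact ⟨hj, (Nat.modEq_and_modEq_iff_modEq_mul hmq).1
          ⟨hjb.trans hcr.1.symm, hjc.trans hcr.2.symm⟩, hjS⟩
      · rintro ⟨hj, hjm, hjS⟩
        obtain ⟨h1, h2⟩ := (Nat.modEq_and_modEq_iff_modEq_mul hmq).2 hjm
        exact ⟨⟨hj, h1.trans hcr.1, hjS⟩, h2.trans hcr.2⟩
    have hcard : F.card = F0.card + F1.card + F2.card := by
      have hd12 : Disjoint F1 F2 := by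
        rw [Finset.disjoint_left]
        intro x hx hy
        have h1 := (Finset.mem_filter.1 hx).2
        have h2 := (Finset.mem_filter.1 hy).2
        exact h12 q (Finset.mem_insert_self _ _) (h1.symm.trans h2)
      have hd0 : Disjoint F0 (F1 ∪ F2) := by
        rw [Finset.disjoint_left]
        intro x hx hy
        have h1 := (Finset.mem_filter.1 hx).2.2 q (Finset.mem_insert_self _ _)
        rcases Finset.mem_union.1 hy with hy | hy
        · exact h1.1 (Finset.mem_filter.1 hy).2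
        · exact h1.2 (Finset.mem_filter.1 hy).2
      have hU : F = F0 ∪ (F1 ∪ F2) := by
        ext j
        simp only [hF, hF0, hF1, hF2, Finset.mem_union, Finset.mem_filter,
          Finset.forall_mem_insert]
        tauto
      rw [hU, Finset.card_union_of_disjoint hd0, Finset.card_union_of_disjoint hd12]
      ring
    have i0 := ih hS' h12' m hm hc' b
    have i1 := ih hS' h12' (m * q) (Nat.mul_pos hm hqp.pos) hcq (Nat.chineseRemainder hmq b (b1 q))
    have i2 := ih hS' h12' (m * q) (Nat.mul_pos hm hqp.pos) hcq (Nat.chineseRemainder hmq b (b2 q))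
    rw [← hcrt] at i1 i2
    rw [← hF] at i0
    have hcard' : (F.card : ℝ) = F0.card + F1.card + F2.card := by exact_mod_cast hcard
    rw [Finset.prod_insert hq, Finset.card_insert_of_notMem hq]
    have hm0 : (m : ℝ) ≠ 0 := by exact_mod_cast hm.ne'
    have hq0 : (q : ℝ) ≠ 0 := by exact_mod_cast hqp.ne_zero
    have e : (K : ℝ) / m * ((1 - 2 / (q : ℝ)) * ∏ p ∈ S, (1 - 2 / (p : ℝ))) =
        (K : ℝ) / m * ∏ p ∈ S, (1 - 2 / (p : ℝ)) -
        2 * ((K : ℝ) / ((m * q : ℕ) : ℝ) * ∏ p ∈ S, (1 - 2 / (p : ℝ))) := by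
      push_cast
      field_simp
    rw [e]
    rw [← hF1] at i1
    rw [← hF2] at i2
    rw [abs_le] at i0 i1 i2 ⊢
    rw [pow_succ]
    constructor
    · linarith [i0.1, i0.2, i1.1, i1.2, i2.1, i2.2]
    · linarith [i0.1, i0.2, i1.1, i1.2, i2.1, i2.2]

lemma exists_class {D p : ℕ} (hp : p.Prime) (hD : Nat.Coprime (2 * D) p) (e : ℕ) :
    ∃ b, ∀ j, p ∣ 2 * D * j + e ↔ j ≡ b [MOD p] := by
  obtain ⟨t, _, ht⟩ := Nat.exists_mul_mod_eq_one_of_coprime hD hp.one_lt
  have h0 : 2 * D * (t * ((p - 1) * e)) + e ≡ 0 [MOD p] := by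
    have h1 : 2 * D * (t * ((p - 1) * e)) + e = (2 * D * t) * ((p - 1) * e) + e := by ring
    have h2 : 2 * D * t ≡ 1 [MOD p] := by
      unfold Nat.ModEq; rw [ht, Nat.mod_eq_of_lt hp.one_lt]
    have h3 : (2 * D * t) * ((p - 1) * e) + e ≡ 1 * ((p - 1) * e) + e [MOD p] :=
      Nat.ModEq.add_right e (h2.mul_right _)
    have h4 : 1 * ((p - 1) * e) + e = p * e := by
      have := hp.pos
      calc 1 * ((p - 1) * e) + e = ((p - 1) + 1) * e := by ring
        _ = p * e := by rw [Nat.sub_add_cancel hp.one_le]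
    rw [h1]
    refine h3.trans ?_
    rw [h4]
    simp [Nat.ModEq]
  refine ⟨t * ((p - 1) * e), fun j => ?_⟩
  constructor
  · intro h
    have h1 : 2 * D * j + e ≡ 2 * D * (t * ((p - 1) * e)) + e [MOD p] :=
      ((Nat.modEq_zero_iff_dvd).2 h).trans h0.symm
    have h2 : 2 * D * j ≡ 2 * D * (t * ((p - 1) * e)) [MOD p] := Nat.ModEq.add_right_cancel' e h1
    exact Nat.ModEq.cancel_left_of_coprime (by rw [Nat.gcd_comm]; exact hD) h2
  · intro h
    rw [← Nat.modEq_zero_iff_dvd]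
    exact (Nat.ModEq.add_right e (h.mul_left (2 * D))).trans h0

/-- The explicit lower bound for the number of cousin pairs. -/
lemma lower_full (n z Y D : ℕ) (S : Finset ℕ) (hD9 : 9 ∣ D) (hodd : Odd D) (hz53 : 53 ≤ z)
    (hS : ∀ p ∈ S, p.Prime) (hSD : ∀ p ∈ S, Nat.Coprime (2 * D) p)
    (hcov : ∀ p, p.Prime → p ≤ z → p ∣ 2 * D ∨ p ∈ S)
    (hY : (n + 1) ^ 3 ≤ Y ^ 2) (hYl : 10 ≤ Real.log Y) :
    (((3 * n ^ 2 + 3 * n - D - 2) / (2 * D) : ℕ) : ℝ) * (∏ p ∈ S, (1 - 2 / (p : ℝ))) -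
      3 ^ S.card -
      2 * ((((3 * n ^ 2 + 3 * n - D - 2) / (2 * D) : ℕ) : ℝ) * H Y *
        (∑ p ∈ Pr z Y, (1 : ℝ) / (p : ℝ) ^ 2) +
        (8 / 35 * (247 / 70) * Y + 16 / 35 * Y * (∑ p ∈ Pr z Y, (1 : ℝ) / (p : ℝ)) + 7)) ≤
      cousinCount n := by
  classical
  set K := (3 * n ^ 2 + 3 * n - D - 2) / (2 * D) with hK
  set a := n ^ 3 / (2 * D) + 1 with ha
  have hDpos : 0 < D := hodd.pos
  have hD9' : 9 ≤ D := Nat.le_of_dvd hDpos hD9
  have h2D : 0 < 2 * D := by omega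
  have hcD : Nat.Coprime 2 D := (Nat.coprime_two_left).2 hodd
  have he1 : Nat.Coprime (D - 2) (2 * D) := by
    apply Nat.Coprime.mul_right
    · rw [Nat.coprime_two_right]
      rw [Nat.odd_sub (by omega)]
      constructor
      · intro _; exact even_two
      · intro _; exact hodd
    · have h1 : Nat.Coprime (D - 2) ((D - 2) + 2) := by
        rw [Nat.coprime_self_add_right, Nat.coprime_two_right, Nat.odd_sub (by omega)]
        constructor
        · intro _; exact even_two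
        · intro _; exact hodd
      rwa [Nat.sub_add_cancel (by omega : 2 ≤ D)] at h1
  have he2 : Nat.Coprime (D + 2) (2 * D) := by
    apply Nat.Coprime.mul_right
    · rw [Nat.coprime_two_right]
      exact hodd.add_even even_two
    · rw [Nat.coprime_self_add_left]
      exact hcD
  have hrange : ∀ j ∈ Finset.Ico a (a + K), n ^ 3 < 2 * D * j + (D - 2) ∧
      2 * D * j + (D + 2) < (n + 1) ^ 3 := by
    intro j hj
    obtain ⟨hj1, hj2⟩ := Finset.mem_Ico.1 hj
    have hK1 : 1 ≤ K := by omega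
    have e1 : 2 * D * (n ^ 3 / (2 * D)) ≤ n ^ 3 := Nat.mul_div_le _ _
    have e2 : n ^ 3 < 2 * D * a := by
      rw [ha]
      exact Nat.lt_mul_div_succ _ h2D
    have e3 : 2 * D * K ≤ 3 * n ^ 2 + 3 * n - D - 2 := Nat.mul_div_le _ _
    have e4 : 2 * D * a ≤ 2 * D * j := Nat.mul_le_mul_left _ hj1
    have e5 : 2 * D * j ≤ 2 * D * (n ^ 3 / (2 * D)) + 2 * D * K := by
      rw [← Nat.mul_add]
      apply Nat.mul_le_mul_left
      omega
    have e6 : 1 * (2 * D) ≤ K * (2 * D) := Nat.mul_le_mul_right _ hK1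
    have e7 : (n + 1) ^ 3 = n ^ 3 + 3 * n ^ 2 + 3 * n + 1 := by ring
    have e8 : K * (2 * D) = 2 * D * K := mul_comm _ _
    constructor
    · omega
    · rw [e7]
      omega
  -- the classes
  have hcl1 : ∀ p, ∃ b, p ∈ S → ∀ j, p ∣ 2 * D * j + (D - 2) ↔ j ≡ b [MOD p] := by
    intro p
    by_cases hp : p ∈ S
    · obtain ⟨b, hb⟩ := exists_class (hS p hp) (hSD p hp) (D - 2)
      exact ⟨b, fun _ => hb⟩
    · exact ⟨0, fun h => absurd h hp⟩
  have hcl2 : ∀ p, ∃ b, p ∈ S → ∀ j, p ∣ 2 * D * j + (D + 2) ↔ j ≡ b [MOD p] := by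
    intro p
    by_cases hp : p ∈ S
    · obtain ⟨b, hb⟩ := exists_class (hS p hp) (hSD p hp) (D + 2)
      exact ⟨b, fun _ => hb⟩
    · exact ⟨0, fun h => absurd h hp⟩
  choose b1 hb1 using hcl1
  choose b2 hb2 using hcl2
  have h12 : ∀ p ∈ S, ¬ b1 p ≡ b2 p [MOD p] := by
    intro p hp hcon
    have h1 : p ∣ 2 * D * (b1 p) + (D - 2) := (hb1 p hp (b1 p)).2 (Nat.ModEq.refl _)
    have h2 : p ∣ 2 * D * (b1 p) + (D + 2) := (hb2 p hp (b1 p)).2 hcon
    have h3 : p ∣ 2 * D * (b1 p) + (D + 2) - (2 * D * (b1 p) + (D - 2)) := Nat.dvd_sub h2 h1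
    have h4 : 2 * D * (b1 p) + (D + 2) - (2 * D * (b1 p) + (D - 2)) = 2 ^ 2 := by omega
    rw [h4] at h3
    have h5 : p ∣ 2 := (hS p hp).dvd_of_dvd_pow h3
    have h6 := Nat.dvd_gcd (h5.trans (dvd_mul_right 2 D)) (dvd_refl p)
    rw [hSD p hp] at h6
    exact (hS p hp).one_lt.ne' (Nat.dvd_one.1 h6)
  set J := Finset.Ico a (a + K) with hJ
  set G0 := J.filter (fun j => ∀ p ∈ S, ¬ p ∣ 2 * D * j + (D - 2) ∧ ¬ p ∣ 2 * D * j + (D + 2))
    with hG0
  have hG0J : G0 ⊆ J := Finset.filter_subset _ _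
  have hG0card : (K : ℝ) * (∏ p ∈ S, (1 - 2 / (p : ℝ))) - 3 ^ S.card ≤ G0.card := by
    have h := sieve_count a K b1 b2 S hS h12 1 one_pos (fun p _ => Nat.coprime_one_left p) 0
    have e : (Finset.Ico a (a + K)).filter (fun j => j ≡ 0 [MOD 1] ∧
        ∀ p ∈ S, ¬ j ≡ b1 p [MOD p] ∧ ¬ j ≡ b2 p [MOD p]) = G0 := by
      rw [hG0, hJ]
      apply Finset.filter_congr
      intro j _
      simp only [Nat.modEq_one, true_and]
      constructor
      · intro h p hp
        exact ⟨fun hd => (h p hp).1 ((hb1 p hp j).1 hd), fun hd => (h p hp).2 ((hb2 p hp j).1 hd)⟩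
      · intro h p hp
        exact ⟨fun hd => (h p hp).1 ((hb1 p hp j).2 hd), fun hd => (h p hp).2 ((hb2 p hp j).2 hd)⟩
    rw [e, abs_le] at h
    simp only [Nat.cast_one, div_one] at h
    linarith [h.1]
  have hnd : ∀ e, Nat.Coprime e (2 * D) → ∀ j p, p.Prime → p ∣ 2 * D → ¬ p ∣ 2 * D * j + e := by
    intro e he j p hp hpD hcon
    have h1 : Nat.Coprime (2 * D * j + e) (2 * D) := coprime_linear he
    have := Nat.dvd_gcd hcon hpD
    rw [h1] at this
    exact hp.one_lt.ne' (Nat.dvd_one.1 this)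
  have hbad1 := bad_real (D := D) (e := D - 2) (a := a) (K := K) (Y := Y) (z := z) he1 hz53 hYl
    G0 hG0J (by
      intro j hj p hp hpz
      rcases hcov p hp hpz with h | h
      · exact hnd _ he1 j p hp h
      · exact ((Finset.mem_filter.1 hj).2 p h).1)
    (by
      intro j hj
      obtain ⟨h1, h2⟩ := hrange j (hG0J hj)
      exact ⟨by omega, by omega⟩)
  have hbad2 := bad_real (D := D) (e := D + 2) (a := a) (K := K) (Y := Y) (z := z) he2 hz53 hYl
    G0 hG0J (by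
      intro j hj p hp hpz
      rcases hcov p hp hpz with h | h
      · exact hnd _ he2 j p hp h
      · exact ((Finset.mem_filter.1 hj).2 p h).2)
    (by
      intro j hj
      obtain ⟨h1, h2⟩ := hrange j (hG0J hj)
      exact ⟨by omega, by omega⟩)
  set B1 := G0.filter (fun j => ¬ IsCyc (2 * D * j + (D - 2))) with hB1
  set B2 := G0.filter (fun j => ¬ IsCyc (2 * D * j + (D + 2))) with hB2
  set G := G0.filter (fun j => IsCyc (2 * D * j + (D - 2)) ∧ IsCyc (2 * D * j + (D + 2))) with hG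
  have hcover : G0 ⊆ G ∪ (B1 ∪ B2) := by
    intro j hj
    by_cases h1 : IsCyc (2 * D * j + (D - 2))
    · by_cases h2 : IsCyc (2 * D * j + (D + 2))
      · exact Finset.mem_union_left _ (Finset.mem_filter.2 ⟨hj, h1, h2⟩)
      · exact Finset.mem_union_right _ (Finset.mem_union_right _ (Finset.mem_filter.2 ⟨hj, h2⟩))
    · exact Finset.mem_union_right _ (Finset.mem_union_left _ (Finset.mem_filter.2 ⟨hj, h1⟩))
  have hcount : G0.card ≤ G.card + (B1.card + B2.card) := by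
    calc G0.card ≤ (G ∪ (B1 ∪ B2)).card := Finset.card_le_card hcover
      _ ≤ G.card + (B1 ∪ B2).card := Finset.card_union_le _ _
      _ ≤ G.card + (B1.card + B2.card) := Nat.add_le_add_left (Finset.card_union_le _ _) _
  have hGC : G.card ≤ cousinCount n := by
    have hinj : Set.InjOn (fun j => 2 * D * j + (D - 2)) (G : Set ℕ) := by
      intro x _ y _ hxy
      simp only at hxy
      have : 2 * D * x = 2 * D * y := by omega
      exact Nat.eq_of_mul_eq_mul_left h2D this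
    rw [← Finset.card_image_of_injOn hinj]
    apply card_le_cousinCount
    intro m hm
    obtain ⟨j, hj, rfl⟩ := Finset.mem_image.1 hm
    obtain ⟨hjJ, hc1, hc2⟩ := Finset.mem_filter.1 hj
    obtain ⟨h1, h2⟩ := hrange j (hG0J hjJ)
    obtain ⟨k, hk⟩ := hodd
    have hDj : 2 * D * j = 2 * (D * j) := by ring
    refine ⟨h1, by omega, hc1, ?_, ?_, ?_, ?_⟩
    · have : 2 * D * j + (D - 2) + 4 = 2 * D * j + (D + 2) := by omega
      rw [this]; exact hc2
    · apply not_isCyc_even (by omega)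
      omega
    · apply not_isCyc_nine
      have : 2 * D * j + (D - 2) + 2 = D * (2 * j + 1) := by
        have : D * (2 * j + 1) = 2 * D * j + D := by ring
        omega
      rw [this]
      exact dvd_mul_of_dvd_left hD9 _
    · apply not_isCyc_even (by omega)
      omega
  have hcount' : (G0.card : ℝ) ≤ G.card + (B1.card + B2.card) := by exact_mod_cast hcount
  have hGC' : (G.card : ℝ) ≤ cousinCount n := by exact_mod_cast hGC
  linarith

end Pool.Agent.MP_2543de_nt.Full
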