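import Pool.Agent.Lib.MP_2543de_nt.Lower
import Pool.Agent.Lib.MP_2543de_nt.Full.Sieve

namespace Pool.Agent.MP_2543de_nt.Full

open Finset

/-- A decidable superset of the primes. -/
def pb (m : ℕ) : Bool :=
  Nat.beq (Nat.gcd m 13082761331670030) 1 || [2,3,5,7,11,13,17,19,23,29,31,37,41,43].contains m

lemma pb_of_prime {p : ℕ} (hp : p.Prime) : pb p = true := by
  unfold pb
  rw [Bool.or_eq_true]
  by_cases h : p ∣ 13082761331670030
  · right
    have e : (13082761331670030 : ℕ) = 2*3*5*7*11*13*17*19*23*29*31*37*41*43 := by norm_num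
    rw [e] at h
    have hd : ∀ q, q.Prime → p ∣ q → p = q := fun q hq h => (Nat.prime_dvd_prime_iff_eq hp hq).1 h
    have h2 : p = 2 ∨ p = 3 ∨ p = 5 ∨ p = 7 ∨ p = 11 ∨ p = 13 ∨ p = 17 ∨ p = 19 ∨ p = 23 ∨
        p = 29 ∨ p = 31 ∨ p = 37 ∨ p = 41 ∨ p = 43 := by
      simp only [hp.dvd_mul] at h
      rcases h with ((((((((((((h | h) | h) | h) | h) | h) | h) | h) | h) | h) | h) | h) | h) | h
      · have := hd 2 (by norm_num) h; tauto
      · have := hd 3 (by norm_num) h; tauto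
      · have := hd 5 (by norm_num) h; tauto
      · have := hd 7 (by norm_num) h; tauto
      · have := hd 11 (by norm_num) h; tauto
      · have := hd 13 (by norm_num) h; tauto
      · have := hd 17 (by norm_num) h; tauto
      · have := hd 19 (by norm_num) h; tauto
      · have := hd 23 (by norm_num) h; tauto
      · have := hd 29 (by norm_num) h; tauto
      · have := hd 31 (by norm_num) h; tauto
      · have := hd 37 (by norm_num) h; tauto
      · have := hd 41 (by norm_num) h; tauto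
      · have := hd 43 (by norm_num) h; tauto
    rcases h2 with h | h | h | h | h | h | h | h | h | h | h | h | h | h <;> subst h <;> decide
  · left
    have := (Nat.Prime.coprime_iff_not_dvd hp).2 h
    rw [this]
    rfl

lemma filter_prime_subset (a b : ℕ) : (Finset.Ioc a b).filter Nat.Prime ⊆
    (Finset.Ioc a b).filter (fun m => pb m = true) := by
  intro p hp
  obtain ⟨h1, h2⟩ := Finset.mem_filter.1 hp
  exact Finset.mem_filter.2 ⟨h1, pb_of_prime h2⟩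

lemma Pr_subset {z t Y : ℕ} (hz : 7 ≤ z) (hzt : z ≤ 210 * t) :
    Pr z Y ⊆ (Finset.Ioc z (210 * t)).filter Nat.Prime ∪
      (Finset.Ioc (210 * t) (max Y (210 * t))).filter (fun k => co k = true) := by
  intro p hp
  obtain ⟨h1, h2, h3⟩ := mem_Pr.1 hp
  rcases Nat.lt_or_ge (210 * t) p with h | h
  · apply Finset.mem_union_right
    refine Finset.mem_filter.2 ⟨Finset.mem_Ioc.2 ⟨h, ?_⟩, (co_iff p).2 (prime_co h3 (by omega))⟩
    exact le_trans h2.le (le_max_left _ _)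
  · apply Finset.mem_union_left
    exact Finset.mem_filter.2 ⟨Finset.mem_Ioc.2 ⟨h1, h⟩, h3⟩

lemma Pr_sq_le {z t : ℕ} (Y : ℕ) (hz : 7 ≤ z) (hzt : z ≤ 210 * t) :
    ∑ p ∈ Pr z Y, (1 : ℝ) / (p : ℝ) ^ 2 ≤ (hs2 pb z (210 * t - z) : ℝ) / 10 ^ 12 +
      8 / 35 * (1 / ((210 * t : ℕ) : ℝ)) + 53 / 35 * (1 / ((210 * t + 1 : ℕ) : ℝ) ^ 2) := by
  have h1 : ∑ p ∈ Pr z Y, (1 : ℝ) / (p : ℝ) ^ 2 ≤
      ∑ p ∈ (Finset.Ioc z (210 * t)).filter Nat.Prime ∪
      (Finset.Ioc (210 * t) (max Y (210 * t))).filter (fun k => co k = true),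
        (1 : ℝ) / (p : ℝ) ^ 2 :=
    Finset.sum_le_sum_of_subset_of_nonneg (Pr_subset hz hzt) (fun _ _ _ => by positivity)
  rw [Finset.sum_union] at h1
  swap
  · rw [Finset.disjoint_left]
    intro x hx hy
    have h1 := Finset.mem_Ioc.1 (Finset.mem_filter.1 hx).1
    have h2 := Finset.mem_Ioc.1 (Finset.mem_filter.1 hy).1
    omega
  have h2 := hs2_spec pb z (210 * t - z)
  rw [Nat.add_sub_cancel' hzt] at h2
  have h3 : ∑ p ∈ (Finset.Ioc z (210 * t)).filter Nat.Prime, (1 : ℝ) / (p : ℝ) ^ 2 ≤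
      ∑ p ∈ (Finset.Ioc z (210 * t)).filter (fun m => pb m = true), (1 : ℝ) / (p : ℝ) ^ 2 :=
    Finset.sum_le_sum_of_subset_of_nonneg (filter_prime_subset _ _) (fun _ _ _ => by positivity)
  have hle : 210 * t ≤ max Y (210 * t) := le_max_right _ _
  have h4 := disc_sum (fun k => co k = true) (fun m => (1 : ℝ) / (m : ℝ) ^ 2) (ρ := 8 / 35)
    (c := 53 / 35) (210 * t) (inv_sq_anti _) (fun m _ => by positivity) (disc_co t) _ hle
  have h5 := sum_inv_sq_le (210 * t) _ (by omega) hle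
  have h6 : (0 : ℝ) ≤ 1 / ((max Y (210 * t) : ℕ) : ℝ) := by positivity
  linarith

lemma Pr_inv_le {z t Y : ℕ} (hz : 7 ≤ z) (hzt : z ≤ 210 * t) (hY : 210 * t ≤ Y) :
    ∑ p ∈ Pr z Y, (1 : ℝ) / (p : ℝ) ≤ (hs pb z (210 * t - z) : ℝ) / 10 ^ 9 +
      8 / 35 * (Real.log Y - Real.log ((210 * t : ℕ) : ℝ)) +
      53 / 35 * (1 / ((210 * t + 1 : ℕ) : ℝ)) := by
  have h1 : ∑ p ∈ Pr z Y, (1 : ℝ) / (p : ℝ) ≤
      ∑ p ∈ (Finset.Ioc z (210 * t)).filter Nat.Prime ∪
      (Finset.Ioc (210 * t) (max Y (210 * t))).filter (fun k => co k = true),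
        (1 : ℝ) / (p : ℝ) :=
    Finset.sum_le_sum_of_subset_of_nonneg (Pr_subset hz hzt) (fun _ _ _ => by positivity)
  rw [max_eq_left hY, Finset.sum_union] at h1
  swap
  · rw [Finset.disjoint_left]
    intro x hx hy
    have h1 := Finset.mem_Ioc.1 (Finset.mem_filter.1 hx).1
    have h2 := Finset.mem_Ioc.1 (Finset.mem_filter.1 hy).1
    omega
  have h2 := hs_spec pb z (210 * t - z)
  rw [Nat.add_sub_cancel' hzt] at h2
  have h3 : ∑ p ∈ (Finset.Ioc z (210 * t)).filter Nat.Prime, (1 : ℝ) / (p : ℝ) ≤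
      ∑ p ∈ (Finset.Ioc z (210 * t)).filter (fun m => pb m = true), (1 : ℝ) / (p : ℝ) :=
    Finset.sum_le_sum_of_subset_of_nonneg (filter_prime_subset _ _) (fun _ _ _ => by positivity)
  have h4 := disc_sum (fun k => co k = true) (fun m => (1 : ℝ) / (m : ℝ)) (ρ := 8 / 35)
    (c := 53 / 35) (210 * t) (inv_anti _) (fun m _ => by positivity) (disc_co t) _ hY
  have h5 := sum_inv_le (210 * t) _ (by omega) hY
  linarith

/-! ### products -/

/-- product of `m - d` over the `m` in `(z, z+n]` with `Q m`. -/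
def pr (Q : ℕ → Bool) (z d : ℕ) : ℕ → ℕ
  | 0 => 1
  | n + 1 => pr Q z d n * (if Q (z + n + 1) then z + n + 1 - d else 1)

lemma pr_pos (Q : ℕ → Bool) (z d : ℕ) (hd : d ≤ z) (n : ℕ) : 0 < pr Q z d n := by
  induction n with
  | zero => simp [pr]
  | succ n ih =>
    rw [pr]
    apply Nat.mul_pos ih
    split_ifs
    · omega
    · omega

lemma pr_spec (Q : ℕ → Bool) (z : ℕ) (hz : 2 ≤ z) (n : ℕ) :
    ∏ m ∈ (Finset.Ioc z (z + n)).filter (fun m => Q m = true), (1 - 2 / (m : ℝ)) =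
      (pr Q z 2 n : ℝ) / (pr Q z 0 n : ℝ) := by
  induction n with
  | zero => simp [pr]
  | succ n ih =>
    rw [← add_assoc, Ioc_succ (by omega : z ≤ z + n), Finset.filter_insert, pr, pr]
    by_cases hQ : Q (z + n + 1) = true
    · rw [if_pos hQ, if_pos hQ, if_pos hQ, Finset.prod_insert (by simp), ih]
      have h0 : (pr Q z 0 n : ℝ) ≠ 0 := by exact_mod_cast (pr_pos Q z 0 (Nat.zero_le _) n).ne'
      have e : ((z + n + 1 - 2 : ℕ) : ℝ) = ((z + n + 1 : ℕ) : ℝ) - 2 := by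
        rw [Nat.cast_sub (by omega)]; norm_num
      have h1 : ((z + n + 1 : ℕ) : ℝ) ≠ 0 := by exact_mod_cast (Nat.succ_ne_zero (z + n))
      rw [Nat.cast_mul, Nat.cast_mul, e, Nat.sub_zero]
      field_simp
    · rw [if_neg hQ, if_neg hQ, if_neg hQ, ih]
      simp

lemma prod_primes_ge (y z : ℕ) (hy : 2 ≤ y) (hyz : y ≤ z) :
    (pr pb y 2 (z - y) : ℝ) / (pr pb y 0 (z - y) : ℝ) ≤
      ∏ p ∈ (Finset.Ioc y z).filter Nat.Prime, (1 - 2 / (p : ℝ)) := by
  have h := pr_spec pb y hy (z - y)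
  rw [Nat.add_sub_cancel' hyz] at h
  rw [← h, ← Finset.prod_sdiff (filter_prime_subset y z)]
  have hf : ∀ m ∈ Finset.Ioc y z, (0 : ℝ) ≤ 1 - 2 / (m : ℝ) ∧ 1 - 2 / (m : ℝ) ≤ 1 := by
    intro m hm
    have h1 := Finset.mem_Ioc.1 hm
    have h2 : (2 : ℝ) ≤ m := by exact_mod_cast (by omega : 2 ≤ m)
    have h3 : (0 : ℝ) < m := by linarith
    constructor
    · rw [sub_nonneg, div_le_one h3]; exact h2
    · have : 0 ≤ 2 / (m : ℝ) := by positivity
      linarith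
  have h1 : 0 ≤ ∏ p ∈ (Finset.Ioc y z).filter Nat.Prime, (1 - 2 / (p : ℝ)) :=
    Finset.prod_nonneg (fun m hm => (hf m (Finset.mem_filter.1 hm).1).1)
  have h2 : ∏ p ∈ (Finset.Ioc y z).filter (fun m => pb m = true) \
      (Finset.Ioc y z).filter Nat.Prime, (1 - 2 / (p : ℝ)) ≤ 1 := by
    apply Finset.prod_le_one
    · intro m hm
      exact (hf m (Finset.mem_filter.1 (Finset.mem_sdiff.1 hm).1).1).1
    · intro m hm
      exact (hf m (Finset.mem_filter.1 (Finset.mem_sdiff.1 hm).1).1).2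
  nlinarith

/-- count of the `m` in `(z, z+n]` with `Q m`. -/
def cn (Q : ℕ → Bool) (z : ℕ) : ℕ → ℕ
  | 0 => 0
  | n + 1 => cn Q z n + (if Q (z + n + 1) then 1 else 0)

lemma cn_spec (Q : ℕ → Bool) (z n : ℕ) :
    ((Finset.Ioc z (z + n)).filter (fun m => Q m = true)).card = cn Q z n := by
  induction n with
  | zero => simp [cn]
  | succ n ih =>
    rw [← add_assoc, Ioc_succ (by omega : z ≤ z + n), Finset.filter_insert, cn]
    by_cases hQ : Q (z + n + 1) = true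
    · rw [if_pos hQ, if_pos hQ, Finset.card_insert_of_notMem (by simp), ih]
    · rw [if_neg hQ, if_neg hQ, ih, Nat.add_zero]

lemma card_primes_le (y z : ℕ) (hyz : y ≤ z) :
    ((Finset.Ioc y z).filter Nat.Prime).card ≤ cn pb y (z - y) := by
  rw [← cn_spec, Nat.add_sub_cancel' hyz]
  exact Finset.card_le_card (filter_prime_subset y z)

lemma Dz_coprime (y p : ℕ) (hy : 3 ≤ y) (hp : p.Prime) (hyp : y < p) :
    Nat.Coprime (2 * Dz y) p := by
  rw [Nat.coprime_comm, Nat.Prime.coprime_iff_not_dvd hp]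
  intro h
  have h2 : p ∣ 2 ∨ p ∣ 9 ∨ p ∣ ∏ p ∈ (Finset.Ico 5 (y + 1)).filter Nat.Prime, p := by
    unfold Dz at h
    rcases hp.dvd_mul.1 h with h | h
    · exact Or.inl h
    · exact Or.inr (hp.dvd_mul.1 h)
  rcases h2 with h | h | h
  · have := Nat.le_of_dvd (by norm_num) h; omega
  · have h3 : p ∣ 3 := hp.dvd_of_dvd_pow (show p ∣ 3 ^ 2 from h)
    have := Nat.le_of_dvd (by norm_num) h3; omega
  · obtain ⟨q, hq, hpq⟩ := (Prime.dvd_finsetProd_iff hp.prime _).1 h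
    obtain ⟨h4, h5⟩ := Finset.mem_filter.1 hq
    have h6 := Finset.mem_Ico.1 h4
    have := (Nat.prime_dvd_prime_iff_eq hp h5).1 hpq
    omega

/-- Lower bound for a configuration. -/
lemma lower_config (n y z t Y : ℕ) (hy : 3 ≤ y) (hyz : y ≤ z) (hz : 53 ≤ z) (hzt : z ≤ 210 * t)
    (hY : (n + 1) ^ 3 ≤ Y ^ 2) (hYl : 10 ≤ Real.log Y) (hYt : 210 * t ≤ Y)
    {g s2 s1 : ℝ} {c : ℕ}
    (hg : g * (pr pb y 0 (z - y) : ℝ) ≤ (pr pb y 2 (z - y) : ℝ))
    (hc : cn pb y (z - y) ≤ c)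
    (hs2 : (hs2 pb z (210 * t - z) : ℝ) / 10 ^ 12 +
      8 / 35 * (1 / ((210 * t : ℕ) : ℝ)) + 53 / 35 * (1 / ((210 * t + 1 : ℕ) : ℝ) ^ 2) ≤ s2)
    (hs1 : (hs pb z (210 * t - z) : ℝ) / 10 ^ 9 +
      8 / 35 * (0 - Real.log ((210 * t : ℕ) : ℝ)) +
      53 / 35 * (1 / ((210 * t + 1 : ℕ) : ℝ)) ≤ s1) :
    (((3 * n ^ 2 + 3 * n - Dz y - 2) / (2 * Dz y) : ℕ) : ℝ) * (g - 2 * H Y * s2) -
      3 ^ c - 14 - Y * (16 / 35 * (247 / 70) + 32 / 35 * (s1 + 8 / 35 * Real.log Y)) ≤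
      cousinCount n := by
  have h := lower_full n z Y (Dz y) ((Finset.Ioc y z).filter Nat.Prime) (nine_dvd_Dz y) (Dz_odd y)
    hz (fun p hp => (Finset.mem_filter.1 hp).2)
    (fun p hp => Dz_coprime y p hy (Finset.mem_filter.1 hp).2
      (Finset.mem_Ioc.1 (Finset.mem_filter.1 hp).1).1)
    (by
      intro p hp hpz
      rcases Nat.lt_or_ge y p with h | h
      · right
        exact Finset.mem_filter.2 ⟨Finset.mem_Ioc.2 ⟨h, hpz⟩, hp⟩
      · left
        exact prime_dvd_Dz y p hp h)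
    hY hYl
  set K : ℝ := (((3 * n ^ 2 + 3 * n - Dz y - 2) / (2 * Dz y) : ℕ) : ℝ) with hK
  have hK0 : 0 ≤ K := Nat.cast_nonneg _
  have hH0 : 0 ≤ H Y := by unfold H; linarith
  have hg' : g ≤ ∏ p ∈ (Finset.Ioc y z).filter Nat.Prime, (1 - 2 / (p : ℝ)) := by
    refine le_trans ?_ (prod_primes_ge y z (by omega) hyz)
    have h0 : (0 : ℝ) < (pr pb y 0 (z - y) : ℝ) := by
      exact_mod_cast (pr_pos pb y 0 (Nat.zero_le _) _)
    rw [le_div_iff₀ h0]
    exact hg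
  have hc' : (3 : ℝ) ^ ((Finset.Ioc y z).filter Nat.Prime).card ≤ 3 ^ c :=
    pow_le_pow_right₀ (by norm_num) ((card_primes_le y z hyz).trans hc)
  have hA := (Pr_sq_le Y (show 7 ≤ z by omega) hzt).trans hs2
  have hB : ∑ p ∈ Pr z Y, (1 : ℝ) / (p : ℝ) ≤ s1 + 8 / 35 * Real.log Y := by
    have := Pr_inv_le (show 7 ≤ z by omega) hzt hYt
    linarith
  have hY0 : (0 : ℝ) ≤ Y := Nat.cast_nonneg _
  have m1 := mul_le_mul_of_nonneg_left hg' hK0
  have m2 := mul_le_mul_of_nonneg_left hA (mul_nonneg hK0 hH0)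
  have m3 := mul_le_mul_of_nonneg_left hB hY0
  linarith

end Pool.Agent.MP_2543de_nt.Full
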