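import Pool.Agent.Lib.MP_2543de_nt.Full.Bad

namespace Pool.Agent.MP_2543de_nt.Full

open Finset

/-! ### Counting bounds -/

lemma al_per (a m : ℕ) : al a (m + 210) = true ↔ al a m = true := by
  rw [al_iff, al_iff]
  have : 1 + a * (m + 210) = (1 + a * m) + 210 * a := by ring
  rw [this, Nat.coprime_add_mul_left_left]

lemma co_per (m : ℕ) : co (m + 210) = true ↔ co m = true := by
  rw [co_iff, co_iff, Nat.coprime_add_self_left]

lemma al_mod (p k : ℕ) : al p k = al (p % 210) k := by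
  unfold al
  congr 1
  have h : (1 + p * k) % 210 = (1 + p % 210 * k) % 210 := by
    rw [Nat.add_mod, Nat.mul_mod, ← Nat.mod_mod (p % 210 * (k % 210)) 210]
    simp [Nat.add_mod, Nat.mul_mod]
  rw [Nat.gcd_comm, Nat.gcd_comm (1 + p % 210 * k), Nat.gcd_rec, Nat.gcd_rec 210 (1 + p % 210 * k),
    h]

lemma co_mod {p : ℕ} (hp : Nat.Coprime p 210) : co (p % 210) = true := by
  rw [co_iff]
  unfold Nat.Coprime at *
  rw [← hp, Nat.gcd_comm p 210, Nat.gcd_rec 210 p]

lemma al_run {p : ℕ} (hp : Nat.Coprime p 210) (s : ℕ) (hs : s < 210) :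
    210 * ((Finset.Ioc 0 s).filter (fun k => al p k = true)).card ≤ 48 * s + 426 := by
  have h1 := allClasses_spec _ 210 al_check (p % 210) (Nat.mod_lt _ (by norm_num)) (co_mod hp)
  rcases Nat.eq_zero_or_pos s with h | h
  · subst h; simp
  · have := run_spec (al (p % 210)) 426 210 0 0 h1 (by simp) s h (by omega)
    simpa only [← al_mod] using this

lemma al_cnt {p : ℕ} (hp : Nat.Coprime p 210) : Nat.count (fun k => al p k = true) 210 = 48 := by
  have h1 := allClasses_spec _ 210 al_count (p % 210) (Nat.mod_lt _ (by norm_num)) (co_mod hp)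
  have := Nat.eq_of_beq_eq_true h1
  simpa only [← al_mod] using this

lemma Ks_card {p : ℕ} (hp : Nat.Coprime p 210) (M : ℕ) :
    210 * (Ks p M).card ≤ 48 * M + 426 :=
  card_disc _ (fun m => al_per p m) (al_cnt hp) 426 (fun s hs => al_run hp s hs) M

lemma Ks_empty {p M : ℕ} (hp : Nat.Coprime p 210) (hM : M < 2) : (Ks p M).card = 0 := by
  rw [Finset.card_eq_zero, Ks, Finset.filter_eq_empty_iff]
  intro k hk
  have hk' := Finset.mem_Ioc.1 hk
  have : k = 1 := by omega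
  subst this
  rw [al_iff]
  intro h
  have h2 : Nat.Coprime (1 + p * 1) 2 := Nat.Coprime.coprime_dvd_right (by norm_num) h
  have h3 : Nat.Coprime p 2 := Nat.Coprime.coprime_dvd_right (by norm_num) hp
  rw [Nat.coprime_two_right] at h2 h3
  obtain ⟨a, ha⟩ := h2
  obtain ⟨b, hb⟩ := h3
  omega

lemma co_card (M : ℕ) :
    210 * ((Finset.Ioc 0 M).filter (fun k => co k = true)).card ≤ 48 * M + 318 := by
  apply card_disc _ co_per co_count
  intro s hs
  rcases Nat.eq_zero_or_pos s with h | h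
  · subst h; simp
  · exact run_spec co 318 210 0 0 co_check (by simp) s h (by omega)

lemma co_cardL (M : ℕ) :
    48 * M ≤ 210 * ((Finset.Ioc 0 M).filter (fun k => co k = true)).card + 318 := by
  apply card_disc_lower _ co_per co_count
  intro s hs
  rcases Nat.eq_zero_or_pos s with h | h
  · subst h; simp
  · exact runL_spec co 318 210 0 0 co_checkL (by simp) s h (by omega)

lemma Rs_card (M : ℕ) : 210 * (Rs M).card ≤ 48 * M + 318 := by
  refine le_trans ?_ (co_card M)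
  apply Nat.mul_le_mul_left
  apply Finset.card_le_card
  intro r hr
  obtain ⟨h1, h2⟩ := Finset.mem_filter.1 hr
  refine Finset.mem_filter.2 ⟨h1, ?_⟩
  rcases h2 with h | h
  · subst h; decide
  · exact h.2

lemma prime_co {p : ℕ} (hp : p.Prime) (h : 7 < p) : Nat.Coprime p 210 := by
  rw [show (210 : ℕ) = 2 * 3 * 5 * 7 by norm_num]
  have h' : ∀ q, q.Prime → q ≤ 7 → Nat.Coprime p q := fun q hq hq7 =>
    (Nat.coprime_primes hp hq).2 (by omega)
  exact (((h' 2 (by norm_num) (by norm_num)).mul_right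
    (h' 3 (by norm_num) (by norm_num))).mul_right
    (h' 5 (by norm_num) (by norm_num))).mul_right (h' 7 (by norm_num) (by norm_num))

lemma mem_Pr {z Y p : ℕ} : p ∈ Pr z Y ↔ z < p ∧ p < Y ∧ p.Prime := by
  unfold Pr
  rw [Finset.mem_filter, Finset.mem_Ico]
  constructor
  · rintro ⟨⟨h1, h2⟩, h3⟩; exact ⟨by omega, h2, h3⟩
  · rintro ⟨h1, h2, h3⟩; exact ⟨⟨by omega, h2⟩, h3⟩

lemma Pr_card {z : ℕ} (hz : 7 ≤ z) (Y : ℕ) : 210 * (Pr z Y).card ≤ 48 * Y + 318 := by
  refine le_trans ?_ (co_card Y)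
  apply Nat.mul_le_mul_left
  apply Finset.card_le_card
  intro p hp
  obtain ⟨h1, h2, h3⟩ := mem_Pr.1 hp
  exact Finset.mem_filter.2 ⟨Finset.mem_Ioc.2 ⟨h3.pos, h2.le⟩, (co_iff p).2 (prime_co h3 (by omega))⟩

lemma Pr_card2 {z : ℕ} (hz : 7 ≤ z) (Y : ℕ) :
    210 * ((Pr z Y).filter (fun p => 2 ≤ Y / p)).card ≤ 48 * (Y / 2) + 318 := by
  refine le_trans ?_ (co_card (Y / 2))
  apply Nat.mul_le_mul_left
  apply Finset.card_le_card
  intro p hp
  obtain ⟨h0, hY⟩ := Finset.mem_filter.1 hp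
  obtain ⟨h1, h2, h3⟩ := mem_Pr.1 h0
  refine Finset.mem_filter.2 ⟨Finset.mem_Ioc.2 ⟨h3.pos, ?_⟩, (co_iff p).2 (prime_co h3 (by omega))⟩
  rw [Nat.le_div_iff_mul_le h3.pos] at hY
  rw [Nat.le_div_iff_mul_le (by norm_num)]
  linarith

/-! ### Scaled sums -/

/-- scaled sum of reciprocals -/
def hs (Q : ℕ → Bool) (z : ℕ) : ℕ → ℕ
  | 0 => 0
  | n + 1 => hs Q z n + (if Q (z + n + 1) then 10 ^ 9 / (z + n + 1) + 1 else 0)

/-- scaled sum of reciprocals of squares -/
def hs2 (Q : ℕ → Bool) (z : ℕ) : ℕ → ℕ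
  | 0 => 0
  | n + 1 => hs2 Q z n + (if Q (z + n + 1) then 10 ^ 12 / (z + n + 1) ^ 2 + 1 else 0)

lemma scaled_le (A d : ℕ) (hd : 0 < d) : (A : ℝ) / d ≤ ((A / d + 1 : ℕ) : ℝ) := by
  rw [div_le_iff₀ (by exact_mod_cast hd)]
  have := Nat.lt_mul_div_succ A hd
  have h : (A : ℝ) < d * ((A / d : ℕ) + 1 : ℝ) := by exact_mod_cast this
  push_cast
  linarith

lemma hs_spec (Q : ℕ → Bool) (z n : ℕ) :
    ∑ m ∈ (Finset.Ioc z (z + n)).filter (fun m => Q m = true), (1 : ℝ) / m ≤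
      (hs Q z n : ℝ) / 10 ^ 9 := by
  induction n with
  | zero => simp [hs]
  | succ n ih =>
    rw [← add_assoc, Ioc_succ (by omega : z ≤ z + n), Finset.filter_insert, hs]
    by_cases hQ : Q (z + n + 1) = true
    · rw [if_pos hQ, if_pos hQ, Finset.sum_insert (by simp)]
      have h := scaled_le (10 ^ 9) (z + n + 1) (by omega)
      have h' : (1 : ℝ) / ((z + n + 1 : ℕ) : ℝ) ≤
          ((10 ^ 9 / (z + n + 1) + 1 : ℕ) : ℝ) / 10 ^ 9 := by
        rw [le_div_iff₀ (by norm_num)]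
        refine le_trans (le_of_eq ?_) h
        push_cast
        ring
      clear h
      generalize 10 ^ 9 / (z + n + 1) + 1 = A at h' ⊢
      rw [Nat.cast_add (hs Q z n) A, add_div]
      linarith
    · rw [if_neg hQ, if_neg hQ]
      simpa using ih

lemma hs2_spec (Q : ℕ → Bool) (z n : ℕ) :
    ∑ m ∈ (Finset.Ioc z (z + n)).filter (fun m => Q m = true), (1 : ℝ) / (m : ℝ) ^ 2 ≤
      (hs2 Q z n : ℝ) / 10 ^ 12 := by
  induction n with
  | zero => simp [hs2]
  | succ n ih =>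
    rw [← add_assoc, Ioc_succ (by omega : z ≤ z + n), Finset.filter_insert, hs2]
    by_cases hQ : Q (z + n + 1) = true
    · rw [if_pos hQ, if_pos hQ, Finset.sum_insert (by simp)]
      have h := scaled_le (10 ^ 12) ((z + n + 1) ^ 2) (by positivity)
      have h' : (1 : ℝ) / ((z + n + 1 : ℕ) : ℝ) ^ 2 ≤
          ((10 ^ 12 / (z + n + 1) ^ 2 + 1 : ℕ) : ℝ) / 10 ^ 12 := by
        rw [le_div_iff₀ (by norm_num)]
        refine le_trans (le_of_eq ?_) h
        push_cast
        ring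
      clear h
      generalize 10 ^ 12 / (z + n + 1) ^ 2 + 1 = A at h' ⊢
      rw [Nat.cast_add (hs2 Q z n) A, add_div]
      linarith
    · rw [if_neg hQ, if_neg hQ]
      simpa using ih

lemma al_hs : allClasses (fun a => Nat.ble (hs (al a) 0 420) 1642080000) 210 = true := by
  decide +kernel

lemma Ks_sum420 {p : ℕ} (hp : Nat.Coprime p 210) :
    ∑ k ∈ Ks p 420, (1 : ℝ) / k ≤ 1.64208 := by
  have h1 := allClasses_spec _ 210 al_hs (p % 210) (Nat.mod_lt _ (by norm_num)) (co_mod hp)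
  have h2 := Nat.le_of_ble_eq_true h1
  have h3 := hs_spec (al (p % 210)) 0 420
  simp only [← al_mod, Nat.zero_add] at h3
  have h4 : (hs (al (p % 210)) 0 420 : ℝ) ≤ 1642080000 := by exact_mod_cast h2
  unfold Ks
  refine h3.trans ?_
  rw [div_le_iff₀ (by norm_num)]
  refine h4.trans (by norm_num)

def rsb (r : ℕ) : Bool := Nat.beq r 1 || (Nat.ble 54 r && co r)

lemma rsb_iff (r : ℕ) : rsb r = true ↔ (r = 1 ∨ (53 < r ∧ co r = true)) := by
  unfold rsb
  rw [Bool.or_eq_true, Bool.and_eq_true]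
  constructor
  · rintro (h | ⟨h1, h2⟩)
    · exact Or.inl (Nat.eq_of_beq_eq_true h)
    · exact Or.inr ⟨Nat.le_of_ble_eq_true h1, h2⟩
  · rintro (h | ⟨h1, h2⟩)
    · left; subst h; rfl
    · exact Or.inr ⟨Nat.ble_eq_true_of_le h1, h2⟩

lemma rsb_hs : Nat.ble (hs rsb 0 420) 1458400000 = true := by decide +kernel

lemma Rs_sum420 : ∑ r ∈ Rs 420, (1 : ℝ) / r ≤ 1.4584 := by
  have h2 := Nat.le_of_ble_eq_true rsb_hs
  have h3 := hs_spec rsb 0 420
  rw [Nat.zero_add] at h3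
  have h4 : (hs rsb 0 420 : ℝ) ≤ 1458400000 := by exact_mod_cast h2
  have h5 : Rs 420 = (Finset.Ioc 0 420).filter (fun m => rsb m = true) :=
    Finset.filter_congr (fun m _ => (rsb_iff m).symm)
  rw [h5]
  refine h3.trans ?_
  rw [div_le_iff₀ (by norm_num)]
  refine h4.trans (by norm_num)

end Pool.Agent.MP_2543de_nt.Full
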