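import Pool.Agent.Lib.MP_2543de_nt.Full.Range

namespace Pool.Agent.MP_2543de_nt.Full

open Finset

lemma Dz_3 : Dz 3 = 9 := by decide +kernel
lemma Dz_7 : Dz 7 = 315 := by decide +kernel
lemma Dz_11 : Dz 11 = 3465 := by decide +kernel
lemma Dz_17 : Dz 17 = 765765 := by decide +kernel

lemma log_ge (N m q : ℕ) (hq : 0 < q) (hN : 0 < N) (h : 2 ^ m ≤ N ^ q) :
    ((m : ℝ) / q) * 0.6931471 ≤ Real.log N := by
  have hq' : (0 : ℝ) < q := by exact_mod_cast hq
  have hN' : (0 : ℝ) < N := by exact_mod_cast hN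
  have h1 : (2 : ℝ) ^ m ≤ (N : ℝ) ^ q := by exact_mod_cast h
  have h2 := Real.log_le_log (by positivity) h1
  rw [Real.log_pow, Real.log_pow] at h2
  have h3 := Real.log_two_gt_d9
  have h4 : (m : ℝ) * 0.6931471 ≤ m * Real.log 2 :=
    mul_le_mul_of_nonneg_left (by linarith) (Nat.cast_nonneg m)
  rw [div_mul_eq_mul_div, div_le_iff₀ hq']
  linarith

lemma piece1 : ∀ n, 2 ^ 17 ≤ n → n < 2 ^ 19 → 1 ≤ cousinCount n := by
  have k1 : 14723 * pr pb 3 0 50 ≤ 100000 * pr pb 3 2 50 := by decide +kernel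
  have k2 : cn pb 3 50 ≤ 14 := by decide +kernel
  have k3 : hs2 pb 53 787 ≤ 3368310379 := by decide +kernel
  have k4 : hs pb 53 787 ≤ 493651508 := by decide +kernel
  have k1' : (14723 : ℝ) * (pr pb 3 0 50 : ℝ) ≤ 100000 * (pr pb 3 2 50 : ℝ) := by
    exact_mod_cast k1
  have k3' : (hs2 pb 53 787 : ℝ) ≤ 3368310379 := by exact_mod_cast k3
  have k4' : (hs pb 53 787 : ℝ) ≤ 493651508 := by exact_mod_cast k4
  have kl : (194 / 20 : ℝ) * 0.6931471 ≤ Real.log 840 := log_ge 840 194 20 (by norm_num) (by norm_num) (by norm_num)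
  refine range_piece 17 19 3 53 4 (by norm_num) (by norm_num) (by norm_num) (by norm_num)
    (by norm_num) (by norm_num) (g := (14723 / 100000 : ℝ)) (s2 := (3642561 / 1000000000 : ℝ)) (s1 := (-520677 / 500000 : ℝ))
    (ℓ := (4938699 / 250000 : ℝ)) (δ := (1060087 / 12500000 : ℝ)) (E := (119733 / 25000 : ℝ)) (X0 := (1810193 / 5000 : ℝ))
    (η := (32743 / 100000 : ℝ)) (c := 14) ?_ k2 ?_ ?_ (by norm_num) (by rw [Dz_3]; norm_num) (by norm_num)
    (by norm_num) (by norm_num) (by norm_num) (by norm_num) (by norm_num) (by norm_num) ?_ (by norm_num)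
    (by norm_num)
  · show _ * (pr pb 3 0 50 : ℝ) ≤ (pr pb 3 2 50 : ℝ)
    linarith
  · show (hs2 pb 53 787 : ℝ) / 10 ^ 12 + _ + _ ≤ _
    generalize (hs2 pb 53 787 : ℝ) = A at k3' ⊢
    norm_num at k3' ⊢
    linarith
  · show (hs pb 53 787 : ℝ) / 10 ^ 9 + _ + _ ≤ _
    generalize (hs pb 53 787 : ℝ) = A at k4' ⊢
    norm_num at k4' kl ⊢
    linarith
  · rw [Dz_3]; norm_num

lemma piece2 : ∀ n, 2 ^ 19 ≤ n → n < 2 ^ 27 → 1 ≤ cousinCount n := by
  have k1 : 14723 * pr pb 3 0 50 ≤ 100000 * pr pb 3 2 50 := by decide +kernel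
  have k2 : cn pb 3 50 ≤ 14 := by decide +kernel
  have k3 : hs2 pb 53 787 ≤ 3368310379 := by decide +kernel
  have k4 : hs pb 53 787 ≤ 493651508 := by decide +kernel
  have k1' : (14723 : ℝ) * (pr pb 3 0 50 : ℝ) ≤ 100000 * (pr pb 3 2 50 : ℝ) := by
    exact_mod_cast k1
  have k3' : (hs2 pb 53 787 : ℝ) ≤ 3368310379 := by exact_mod_cast k3
  have k4' : (hs pb 53 787 : ℝ) ≤ 493651508 := by exact_mod_cast k4
  have kl : (194 / 20 : ℝ) * 0.6931471 ≤ Real.log 840 := log_ge 840 194 20 (by norm_num) (by norm_num) (by norm_num)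
  refine range_piece 19 27 3 53 4 (by norm_num) (by norm_num) (by norm_num) (by norm_num)
    (by norm_num) (by norm_num) (g := (14723 / 100000 : ℝ)) (s2 := (3642561 / 1000000000 : ℝ)) (s1 := (-520677 / 500000 : ℝ))
    (ℓ := (14036281 / 500000 : ℝ)) (δ := (1427649 / 25000000 : ℝ)) (E := (163189 / 25000 : ℝ)) (X0 := (7240773 / 10000 : ℝ))
    (η := (3633 / 10000 : ℝ)) (c := 14) ?_ k2 ?_ ?_ (by norm_num) (by rw [Dz_3]; norm_num) (by norm_num)
    (by norm_num) (by norm_num) (by norm_num) (by norm_num) (by norm_num) (by norm_num) ?_ (by norm_num)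
    (by norm_num)
  · show _ * (pr pb 3 0 50 : ℝ) ≤ (pr pb 3 2 50 : ℝ)
    linarith
  · show (hs2 pb 53 787 : ℝ) / 10 ^ 12 + _ + _ ≤ _
    generalize (hs2 pb 53 787 : ℝ) = A at k3' ⊢
    norm_num at k3' ⊢
    linarith
  · show (hs pb 53 787 : ℝ) / 10 ^ 9 + _ + _ ≤ _
    generalize (hs pb 53 787 : ℝ) = A at k4' ⊢
    norm_num at k4' kl ⊢
    linarith
  · rw [Dz_3]; norm_num

lemma piece3 : ∀ n, 2 ^ 27 ≤ n → n < 2 ^ 42 → 1 ≤ cousinCount n := by
  have k1 : 14723 * pr pb 3 0 50 ≤ 100000 * pr pb 3 2 50 := by decide +kernel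
  have k2 : cn pb 3 50 ≤ 14 := by decide +kernel
  have k3 : hs2 pb 53 787 ≤ 3368310379 := by decide +kernel
  have k4 : hs pb 53 787 ≤ 493651508 := by decide +kernel
  have k1' : (14723 : ℝ) * (pr pb 3 0 50 : ℝ) ≤ 100000 * (pr pb 3 2 50 : ℝ) := by
    exact_mod_cast k1
  have k3' : (hs2 pb 53 787 : ℝ) ≤ 3368310379 := by exact_mod_cast k3
  have k4' : (hs pb 53 787 : ℝ) ≤ 493651508 := by exact_mod_cast k4
  have kl : (194 / 20 : ℝ) * 0.6931471 ≤ Real.log 840 := log_ge 840 194 20 (by norm_num) (by norm_num) (by norm_num)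
  refine range_piece 27 42 3 53 4 (by norm_num) (by norm_num) (by norm_num) (by norm_num)
    (by norm_num) (by norm_num) (g := (14723 / 100000 : ℝ)) (s2 := (3642561 / 1000000000 : ℝ)) (s1 := (-520677 / 500000 : ℝ))
    (ℓ := (21834187 / 500000 : ℝ)) (δ := (258329 / 50000000 : ℝ)) (E := (978677 / 100000 : ℝ)) (X0 := (926819 / 80 : ℝ))
    (η := (9413 / 50000 : ℝ)) (c := 14) ?_ k2 ?_ ?_ (by norm_num) (le_trans (by rw [Dz_3]; norm_num : Dz 3 + 1 ≤ 2 ^ 20) (Nat.pow_le_pow_right (by norm_num) (by norm_num))) (by norm_num)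
    (by norm_num) (by norm_num) (by norm_num) (by norm_num) (by norm_num) (by norm_num) ?_ (by norm_num)
    (by norm_num)
  · show _ * (pr pb 3 0 50 : ℝ) ≤ (pr pb 3 2 50 : ℝ)
    linarith
  · show (hs2 pb 53 787 : ℝ) / 10 ^ 12 + _ + _ ≤ _
    generalize (hs2 pb 53 787 : ℝ) = A at k3' ⊢
    norm_num at k3' ⊢
    linarith
  · show (hs pb 53 787 : ℝ) / 10 ^ 9 + _ + _ ≤ _
    generalize (hs pb 53 787 : ℝ) = A at k4' ⊢
    norm_num at k4' kl ⊢
    linarith
  · rw [Dz_3]; norm_num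

lemma piece4 : ∀ n, 2 ^ 42 ≤ n → n < 2 ^ 95 → 1 ≤ cousinCount n := by
  have k1 : 34355 * pr pb 7 0 46 ≤ 100000 * pr pb 7 2 46 := by decide +kernel
  have k2 : cn pb 7 46 ≤ 12 := by decide +kernel
  have k3 : hs2 pb 53 787 ≤ 3368310379 := by decide +kernel
  have k4 : hs pb 53 787 ≤ 493651508 := by decide +kernel
  have k1' : (34355 : ℝ) * (pr pb 7 0 46 : ℝ) ≤ 100000 * (pr pb 7 2 46 : ℝ) := by
    exact_mod_cast k1
  have k3' : (hs2 pb 53 787 : ℝ) ≤ 3368310379 := by exact_mod_cast k3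
  have k4' : (hs pb 53 787 : ℝ) ≤ 493651508 := by exact_mod_cast k4
  have kl : (194 / 20 : ℝ) * 0.6931471 ≤ Real.log 840 := log_ge 840 194 20 (by norm_num) (by norm_num) (by norm_num)
  refine range_piece 42 95 7 53 4 (by norm_num) (by norm_num) (by norm_num) (by norm_num)
    (by norm_num) (by norm_num) (g := (6871 / 20000 : ℝ)) (s2 := (3642561 / 1000000000 : ℝ)) (s1 := (-520677 / 500000 : ℝ))
    (ℓ := (12346697 / 125000 : ℝ)) (δ := (224593 / 12500000 : ℝ)) (E := (2130263 / 100000 : ℝ)) (X0 := 2 ^ 21)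
    (η := (3953149 / 25000 : ℝ)) (c := 12) ?_ k2 ?_ ?_ (by norm_num) (le_trans (by rw [Dz_7]; norm_num : Dz 7 + 1 ≤ 2 ^ 20) (Nat.pow_le_pow_right (by norm_num) (by norm_num))) (by norm_num)
    (by norm_num) (by norm_num) (by norm_num) (by norm_num) (by norm_num) (by rw [← pow_mul] <;> exact pow_le_pow_right₀ (by norm_num) (by norm_num)) ?_ (by norm_num)
    (by norm_num)
  · show _ * (pr pb 7 0 46 : ℝ) ≤ (pr pb 7 2 46 : ℝ)
    linarith
  · show (hs2 pb 53 787 : ℝ) / 10 ^ 12 + _ + _ ≤ _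
    generalize (hs2 pb 53 787 : ℝ) = A at k3' ⊢
    norm_num at k3' ⊢
    linarith
  · show (hs pb 53 787 : ℝ) / 10 ^ 9 + _ + _ ≤ _
    generalize (hs pb 53 787 : ℝ) = A at k4' ⊢
    norm_num at k4' kl ⊢
    linarith
  · rw [Dz_7]; norm_num

lemma piece5 : ∀ n, 2 ^ 95 ≤ n → n < 2 ^ 240 → 1 ≤ cousinCount n := by
  have k1 : 19967 * pr pb 7 0 192 ≤ 100000 * pr pb 7 2 192 := by decide +kernel
  have k2 : cn pb 7 192 ≤ 42 := by decide +kernel
  have k3 : hs2 pb 199 851 ≤ 628421971 := by decide +kernel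
  have k4 : hs pb 199 851 ≤ 256838889 := by decide +kernel
  have k1' : (19967 : ℝ) * (pr pb 7 0 192 : ℝ) ≤ 100000 * (pr pb 7 2 192 : ℝ) := by
    exact_mod_cast k1
  have k3' : (hs2 pb 199 851 : ℝ) ≤ 628421971 := by exact_mod_cast k3
  have k4' : (hs pb 199 851 : ℝ) ≤ 256838889 := by exact_mod_cast k4
  have kl : (200 / 20 : ℝ) * 0.6931471 ≤ Real.log 1050 := log_ge 1050 200 20 (by norm_num) (by norm_num) (by norm_num)
  refine range_piece 95 240 7 199 5 (by norm_num) (by norm_num) (by norm_num) (by norm_num)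
    (by norm_num) (by norm_num) (g := (19967 / 100000 : ℝ)) (s2 := (21187 / 25000000 : ℝ)) (s1 := (-165757 / 125000 : ℝ))
    (ℓ := (62383273 / 250000 : ℝ)) (δ := (710547 / 100000000 : ℝ)) (E := (13137 / 250 : ℝ)) (X0 := 2 ^ 47)
    (η := (238096664368559 / 50000 : ℝ)) (c := 42) ?_ k2 ?_ ?_ (by norm_num) (le_trans (by rw [Dz_7]; norm_num : Dz 7 + 1 ≤ 2 ^ 20) (Nat.pow_le_pow_right (by norm_num) (by norm_num))) (by norm_num)
    (by norm_num) (by norm_num) (by norm_num) (by norm_num) (by norm_num) (by rw [← pow_mul] <;> exact pow_le_pow_right₀ (by norm_num) (by norm_num)) ?_ (by norm_num)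
    (by norm_num)
  · show _ * (pr pb 7 0 192 : ℝ) ≤ (pr pb 7 2 192 : ℝ)
    linarith
  · show (hs2 pb 199 851 : ℝ) / 10 ^ 12 + _ + _ ≤ _
    generalize (hs2 pb 199 851 : ℝ) = A at k3' ⊢
    norm_num at k3' ⊢
    linarith
  · show (hs pb 199 851 : ℝ) / 10 ^ 9 + _ + _ ≤ _
    generalize (hs pb 199 851 : ℝ) = A at k4' ⊢
    norm_num at k4' kl ⊢
    linarith
  · rw [Dz_7]; norm_num

lemma piece6 : ∀ n, 2 ^ 240 ≤ n → n < 2 ^ 450 → 1 ≤ cousinCount n := by
  have k1 : 19482 * pr pb 11 0 390 ≤ 100000 * pr pb 11 2 390 := by decide +kernel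
  have k2 : cn pb 11 390 ≤ 74 := by decide +kernel
  have k3 : hs2 pb 401 859 ≤ 254582217 := by decide +kernel
  have k4 : hs pb 401 859 ≤ 169818773 := by decide +kernel
  have k1' : (19482 : ℝ) * (pr pb 11 0 390 : ℝ) ≤ 100000 * (pr pb 11 2 390 : ℝ) := by
    exact_mod_cast k1
  have k3' : (hs2 pb 401 859 : ℝ) ≤ 254582217 := by exact_mod_cast k3
  have k4' : (hs pb 401 859 : ℝ) ≤ 169818773 := by exact_mod_cast k4
  have kl : (205 / 20 : ℝ) * 0.6931471 ≤ Real.log 1260 := log_ge 1260 205 20 (by norm_num) (by norm_num) (by norm_num)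
  refine range_piece 240 450 11 401 6 (by norm_num) (by norm_num) (by norm_num) (by norm_num)
    (by norm_num) (by norm_num) (g := (9741 / 50000 : ℝ)) (s2 := (436941 / 1000000000 : ℝ)) (s1 := (-58117 / 40000 : ℝ))
    (ℓ := (23393723 / 50000 : ℝ)) (δ := (207831 / 25000000 : ℝ)) (E := (9806089 / 100000 : ℝ)) (X0 := 2 ^ 120)
    (η := (59795407703890660342309767346203617 / 12500 : ℝ)) (c := 74) ?_ k2 ?_ ?_ (by norm_num) (le_trans (by rw [Dz_11]; norm_num : Dz 11 + 1 ≤ 2 ^ 20) (Nat.pow_le_pow_right (by norm_num) (by norm_num))) (by norm_num)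
    (by norm_num) (by norm_num) (by norm_num) (by norm_num) (by norm_num) (by rw [← pow_mul] <;> exact pow_le_pow_right₀ (by norm_num) (by norm_num)) ?_ (by norm_num)
    (by norm_num)
  · show _ * (pr pb 11 0 390 : ℝ) ≤ (pr pb 11 2 390 : ℝ)
    linarith
  · show (hs2 pb 401 859 : ℝ) / 10 ^ 12 + _ + _ ≤ _
    generalize (hs2 pb 401 859 : ℝ) = A at k3' ⊢
    norm_num at k3' ⊢
    linarith
  · show (hs pb 401 859 : ℝ) / 10 ^ 9 + _ + _ ≤ _
    generalize (hs pb 401 859 : ℝ) = A at k4' ⊢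
    norm_num at k4' kl ⊢
    linarith
  · rw [Dz_11]; norm_num

lemma piece7 : ∀ n, 2 ^ 450 ≤ n → n < 2 ^ 935 → 1 ≤ cousinCount n := by
  have k1 : 21169 * pr pb 17 0 780 ≤ 100000 * pr pb 17 2 780 := by decide +kernel
  have k2 : cn pb 17 780 ≤ 132 := by decide +kernel
  have k3 : hs2 pb 797 883 ≤ 93222951 := by decide +kernel
  have k4 : hs pb 797 883 ≤ 105040806 := by decide +kernel
  have k1' : (21169 : ℝ) * (pr pb 17 0 780 : ℝ) ≤ 100000 * (pr pb 17 2 780 : ℝ) := by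
    exact_mod_cast k1
  have k3' : (hs2 pb 797 883 : ℝ) ≤ 93222951 := by exact_mod_cast k3
  have k4' : (hs pb 797 883 : ℝ) ≤ 105040806 := by exact_mod_cast k4
  have kl : (214 / 20 : ℝ) * 0.6931471 ≤ Real.log 1680 := log_ge 1680 214 20 (by norm_num) (by norm_num) (by norm_num)
  refine range_piece 450 935 17 797 8 (by norm_num) (by norm_num) (by norm_num) (by norm_num)
    (by norm_num) (by norm_num) (g := (21169 / 100000 : ℝ)) (s2 := (114907 / 500000000 : ℝ)) (s1 := (-794649 / 500000 : ℝ))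
    (ℓ := (121517381 / 125000 : ℝ)) (δ := (9551 / 1250000 : ℝ)) (E := (10165861 / 50000 : ℝ)) (X0 := 2 ^ 130)
    (η := (509300407273022391653631212011263851 / 25000 : ℝ)) (c := 132) ?_ k2 ?_ ?_ (by norm_num) (le_trans (by rw [Dz_17]; norm_num : Dz 17 + 1 ≤ 2 ^ 20) (Nat.pow_le_pow_right (by norm_num) (by norm_num))) (by norm_num)
    (by norm_num) (by norm_num) (by norm_num) (by norm_num) (by norm_num) (by rw [← pow_mul] <;> exact pow_le_pow_right₀ (by norm_num) (by norm_num)) ?_ (by norm_num)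
    (by norm_num)
  · show _ * (pr pb 17 0 780 : ℝ) ≤ (pr pb 17 2 780 : ℝ)
    linarith
  · show (hs2 pb 797 883 : ℝ) / 10 ^ 12 + _ + _ ≤ _
    generalize (hs2 pb 797 883 : ℝ) = A at k3' ⊢
    norm_num at k3' ⊢
    linarith
  · show (hs pb 797 883 : ℝ) / 10 ^ 9 + _ + _ ≤ _
    generalize (hs pb 797 883 : ℝ) = A at k4' ⊢
    norm_num at k4' kl ⊢
    linarith
  · rw [Dz_17]; norm_num

lemma piece8 : ∀ n, 2 ^ 935 ≤ n → n < 2 ^ 1500 → 1 ≤ cousinCount n := by
  have k1 : 17409 * pr pb 17 0 1580 ≤ 100000 * pr pb 17 2 1580 := by decide +kernel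
  have k2 : cn pb 17 1580 ≤ 244 := by decide +kernel
  have k3 : hs2 pb 1597 923 ≤ 29726983 := by decide +kernel
  have k4 : hs pb 1597 923 ≤ 58962175 := by decide +kernel
  have k1' : (17409 : ℝ) * (pr pb 17 0 1580 : ℝ) ≤ 100000 * (pr pb 17 2 1580 : ℝ) := by
    exact_mod_cast k1
  have k3' : (hs2 pb 1597 923 : ℝ) ≤ 29726983 := by exact_mod_cast k3
  have k4' : (hs pb 1597 923 : ℝ) ≤ 58962175 := by exact_mod_cast k4
  have kl : (225 / 20 : ℝ) * 0.6931471 ≤ Real.log 2520 := log_ge 2520 225 20 (by norm_num) (by norm_num) (by norm_num)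
  refine range_piece 935 1500 17 1597 12 (by norm_num) (by norm_num) (by norm_num) (by norm_num)
    (by norm_num) (by norm_num) (g := (17409 / 100000 : ℝ)) (s2 := (120669 / 1000000000 : ℝ)) (s1 := (-344563 / 200000 : ℝ))
    (ℓ := (15595813 / 10000 : ℝ)) (δ := (106963 / 50000000 : ℝ)) (E := (16297929 / 50000 : ℝ)) (X0 := 2 ^ 130)
    (η := (570372730218242006894014818634603847 / 100000 : ℝ)) (c := 244) ?_ k2 ?_ ?_ (by norm_num) (le_trans (by rw [Dz_17]; norm_num : Dz 17 + 1 ≤ 2 ^ 20) (Nat.pow_le_pow_right (by norm_num) (by norm_num))) (by norm_num)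
    (by norm_num) (by norm_num) (by norm_num) (by norm_num) (by norm_num) (by rw [← pow_mul] <;> exact pow_le_pow_right₀ (by norm_num) (by norm_num)) ?_ (by norm_num)
    (by norm_num)
  · show _ * (pr pb 17 0 1580 : ℝ) ≤ (pr pb 17 2 1580 : ℝ)
    linarith
  · show (hs2 pb 1597 923 : ℝ) / 10 ^ 12 + _ + _ ≤ _
    generalize (hs2 pb 1597 923 : ℝ) = A at k3' ⊢
    norm_num at k3' ⊢
    linarith
  · show (hs pb 1597 923 : ℝ) / 10 ^ 9 + _ + _ ≤ _
    generalize (hs pb 1597 923 : ℝ) = A at k4' ⊢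
    norm_num at k4' kl ⊢
    linarith
  · rw [Dz_17]; norm_num

end Pool.Agent.MP_2543de_nt.Full
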