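import Pool.Agent.Lib.MP_2543de_nt.Full.Range

namespace Pool.Agent.MP_2543de_nt.Full

open Finset

lemma Pr_sub_co {z Y : ℕ} (hz : 7 ≤ z) :
    Pr z Y ⊆ (Finset.Ioc z (max Y z)).filter (fun k => co k = true) := by
  intro p hp
  obtain ⟨h1, h2, h3⟩ := mem_Pr.1 hp
  refine Finset.mem_filter.2 ⟨Finset.mem_Ioc.2 ⟨h1, ?_⟩, (co_iff p).2 (prime_co h3 (by omega))⟩
  exact le_trans h2.le (le_max_left _ _)

lemma Pr_sq_le' {z : ℕ} (Y : ℕ) (hz : 7 ≤ z) :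
    ∑ p ∈ Pr z Y, (1 : ℝ) / (p : ℝ) ^ 2 ≤ 8 / 35 * (1 / (z : ℝ)) + 106 / 35 * (1 / (z : ℝ) ^ 2) := by
  have h1 : ∑ p ∈ Pr z Y, (1 : ℝ) / (p : ℝ) ^ 2 ≤
      ∑ p ∈ (Finset.Ioc z (max Y z)).filter (fun k => co k = true), (1 : ℝ) / (p : ℝ) ^ 2 :=
    Finset.sum_le_sum_of_subset_of_nonneg (Pr_sub_co hz) (fun _ _ _ => by positivity)
  have hle : z ≤ max Y z := le_max_right _ _
  have h4 := disc_sum (fun k => co k = true) (fun m => (1 : ℝ) / (m : ℝ) ^ 2) (ρ := 8 / 35)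
    (c := 106 / 35) z (inv_sq_anti _) (fun m _ => by positivity) (disc_co' z) _ hle
  have h5 := sum_inv_sq_le z _ (by omega) hle
  have h6 : (0 : ℝ) ≤ 1 / ((max Y z : ℕ) : ℝ) := by positivity
  have h7 : (1 : ℝ) / ((z + 1 : ℕ) : ℝ) ^ 2 ≤ 1 / (z : ℝ) ^ 2 := inv_sq_anti 0 z (by omega)
  linarith

lemma Pr_inv_le' {z Y : ℕ} (hz : 7 ≤ z) (hY : z ≤ Y) :
    ∑ p ∈ Pr z Y, (1 : ℝ) / (p : ℝ) ≤ 8 / 35 * Real.log Y + 1 := by
  have h1 : ∑ p ∈ Pr z Y, (1 : ℝ) / (p : ℝ) ≤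
      ∑ p ∈ (Finset.Ioc z (max Y z)).filter (fun k => co k = true), (1 : ℝ) / (p : ℝ) :=
    Finset.sum_le_sum_of_subset_of_nonneg (Pr_sub_co hz) (fun _ _ _ => by positivity)
  rw [max_eq_left hY] at h1
  have h4 := disc_sum (fun k => co k = true) (fun m => (1 : ℝ) / (m : ℝ)) (ρ := 8 / 35)
    (c := 106 / 35) z (inv_anti _) (fun m _ => by positivity) (disc_co' z) _ hY
  have h5 := sum_inv_le z _ (by omega) hY
  have h6 : 0 ≤ Real.log (z : ℝ) := Real.log_natCast_nonneg z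
  have h7 : (1 : ℝ) / ((z + 1 : ℕ) : ℝ) ≤ 1 / 8 := by
    apply one_div_le_one_div_of_le (by norm_num)
    exact_mod_cast (by omega : 8 ≤ z + 1)
  linarith

/-- Growth. -/
lemma pow_growth : ∀ m : ℕ, 58 ≤ m → (1000 * m + 2000) ^ 2 ≤ 2 ^ m := by
  intro m hm
  induction m, hm using Nat.le_induction with
  | base => norm_num
  | succ m hm ih =>
    have h : (1000 * (m + 1) + 2000) ^ 2 ≤ 2 * (1000 * m + 2000) ^ 2 := by nlinarith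
    calc (1000 * (m + 1) + 2000) ^ 2 ≤ 2 * (1000 * m + 2000) ^ 2 := h
      _ ≤ 2 * 2 ^ m := Nat.mul_le_mul_left 2 ih
      _ = 2 ^ (m + 1) := by ring

lemma S2_nonneg (z Y : ℕ) : 0 ≤ ∑ p ∈ Pr z Y, (1 : ℝ) / (p : ℝ) ^ 2 :=
  Finset.sum_nonneg (fun _ _ => by positivity)

lemma s2_symb {m : ℕ} (Y : ℕ) (hm : 58 ≤ m) : ∑ p ∈ Pr (6 * m) Y, (1 : ℝ) / (p : ℝ) ^ 2 ≤
    4 / 105 * (1 / m) + 53 / 630 * (1 / (m : ℝ) ^ 2) := by
  have hA := Pr_sq_le' (z := 6 * m) Y (by omega)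
  refine hA.trans (le_of_eq ?_)
  push_cast
  have hm0 : (m : ℝ) ≠ 0 := by
    have : m ≠ 0 := by omega
    exact_mod_cast this
  field_simp
  ring

lemma K_ge' {x K D : ℝ} {n : ℝ} {e : ℕ} (hx4 : x ^ 4 = n ^ 2) (hD0 : 0 < D)
    (hDD : D ≤ 9 * 2 ^ e) (hK : 3 * n ^ 2 / (2 * D) ≤ K) :
    3 * x ^ 4 / (2 * (9 * 2 ^ e : ℝ)) ≤ K := by
  rw [hx4]
  refine le_trans ?_ hK
  apply div_le_div_of_nonneg_left (by positivity) (by positivity)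
  linarith

lemma sqrt_four {n : ℝ} (hn0 : 0 < n) : (Real.sqrt n) ^ 4 = n ^ 2 := by
  have hx2 : (Real.sqrt n) ^ 2 = n := Real.sq_sqrt hn0.le
  calc (Real.sqrt n) ^ 4 = ((Real.sqrt n) ^ 2) ^ 2 := by ring
    _ = _ := by rw [hx2]

lemma z_lt_n {m n : ℕ} (hn1 : 2 ^ (25 * m) ≤ n) : 6 * m < n := by
  have h2 : 6 * m < 2 ^ (6 * m) := Nat.lt_two_pow_self
  have h3 : 2 ^ (6 * m) ≤ 2 ^ (25 * m) := Nat.pow_le_pow_right (by norm_num) (by omega)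
  omega

lemma z_le_Y {z n Y : ℕ} (hzn : z < n) (hY : (n + 1) ^ 3 ≤ Y ^ 2) : z ≤ Y := by
  by_contra hcon
  push Not at hcon
  have h1 : Y ^ 2 ≤ z ^ 2 := Nat.pow_le_pow_left hcon.le 2
  have h4 : z ^ 2 ≤ n ^ 2 := Nat.pow_le_pow_left hzn.le 2
  have h5 : n ^ 2 < (n + 1) ^ 3 := by nlinarith [Nat.zero_le n, Nat.zero_le (n ^ 2), Nat.zero_le (n ^ 3)]
  omega

lemma D_lt_n {m n D : ℕ} (hm : 58 ≤ m) (hD : D ≤ 9 * 2 ^ (12 * m)) (hn1 : 2 ^ (25 * m) ≤ n) :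
    D + 1 ≤ n := by
  have h1 : 2 ^ (25 * m) = 2 ^ (12 * m) * 2 ^ (13 * m) := by rw [← pow_add]; ring_nf
  have h2 : 2 ^ 4 ≤ 2 ^ (13 * m) := Nat.pow_le_pow_right (by norm_num) (by omega)
  have h3 : 1 ≤ 2 ^ (12 * m) := Nat.one_le_two_pow
  have h4 : 2 ^ (12 * m) * 2 ^ 4 ≤ 2 ^ (12 * m) * 2 ^ (13 * m) := Nat.mul_le_mul_left _ h2
  rw [← h1] at h4
  omega

lemma density {m : ℝ} {Hy S : ℝ} (hm : 58 ≤ m) (hH : Hy ≤ 11.8858 * (m + 1))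
    (hS : S ≤ 4 / 105 * (1 / m) + 53 / 630 * (1 / m ^ 2)) (hS0 : 0 ≤ S) :
    2 * (Hy * S) ≤ 0.96 := by
  have hm0 : 0 < m := by linarith
  have h1 : Hy * S ≤ (11.8858 * (m + 1)) * (4 / 105 * (1 / m) + 53 / 630 * (1 / m ^ 2)) :=
    mul_le_mul hH hS hS0 (by positivity)
  have h2 : (11.8858 * (m + 1)) * (4 / 105 * (1 / m) + 53 / 630 * (1 / m ^ 2)) =
      11.8858 * (4 / 105 + (4 / 105 + 53 / 630) * (1 / m) + 53 / 630 * ((1 / m) * (1 / m))) := by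
    field_simp
    ring
  have h3 : 1 / m ≤ 1 / 58 := one_div_le_one_div_of_le (by norm_num) hm
  have h4 : 0 ≤ 1 / m := by positivity
  have h5 : (1 / m) * (1 / m) ≤ (1 / 58) * (1 / 58) := mul_le_mul h3 h3 h4 (by norm_num)
  rw [h2] at h1
  norm_num at h1 h3 h5 ⊢
  linarith

lemma X0_le {m n : ℕ} (hm : 58 ≤ m) (hn1 : 2 ^ (25 * m) ≤ n) :
    (2 : ℝ) ^ (12 * m) * (1000 * m + 2000) ≤ Real.sqrt n := by
  apply Real.le_sqrt_of_sq_le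
  have h1 : (1000 * m + 2000) ^ 2 ≤ 2 ^ m := pow_growth m hm
  have h2 : ((2 : ℝ) ^ (12 * m) * (1000 * m + 2000)) ^ 2 =
      2 ^ (24 * m) * (1000 * m + 2000) ^ 2 := by
    rw [mul_pow, ← pow_mul]; ring_nf
  have h3 : ((1000 : ℝ) * m + 2000) ^ 2 ≤ 2 ^ m := by exact_mod_cast h1
  rw [h2]
  calc (2 : ℝ) ^ (24 * m) * (1000 * m + 2000) ^ 2 ≤ 2 ^ (24 * m) * 2 ^ m := by gcongr
    _ = 2 ^ (25 * m) := by rw [← pow_add]; ring_nf
    _ ≤ n := by exact_mod_cast hn1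

lemma log_Y_le {m n Y : ℕ} (hn0 : (0 : ℝ) < n) (hn2 : n < 2 ^ (25 * (m + 1)))
    (hY3 : Real.log Y ≤ 3 / 2 * Real.log n + 0.0001) : Real.log Y ≤ 26 * (m + 1) := by
  have h1 : (n : ℝ) ≤ 2 ^ (25 * (m + 1)) := by exact_mod_cast hn2.le
  have h2 := Real.log_le_log hn0 h1
  rw [Real.log_pow] at h2
  have h3 := Real.log_two_lt_d9
  have h4 : ((25 * (m + 1) : ℕ) : ℝ) * Real.log 2 ≤ (25 * (m + 1) : ℕ) * 0.6931472 := by
    apply mul_le_mul_of_nonneg_left _ (Nat.cast_nonneg _)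
    linarith
  push_cast at h2 h4
  have hm0 : (0 : ℝ) ≤ m := Nat.cast_nonneg m
  linarith

/-- The final inequality for large `n`. -/
lemma large_final {m x K Y C L Hy S1 S2 : ℝ} {e : ℕ} (hm : 58 ≤ m)
    (hK' : 3 * x ^ 4 / (2 * (9 * 2 ^ e : ℝ)) ≤ K) (hK0 : 0 ≤ K)
    (hY2 : Y ≤ 1.0001 * x ^ 3) (hY0 : 0 ≤ Y)
    (hX : (2 : ℝ) ^ e * (1000 * m + 2000) ≤ x)
    (hdens : 2 * (Hy * S2) ≤ 0.96) (hB : S1 ≤ 8 / 35 * L + 1) (hlog : L ≤ 26 * (m + 1))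
    (hlow : K - 1 - 2 * (K * Hy * S2 + (8 / 35 * (247 / 70) * Y + 16 / 35 * Y * S1 + 7)) ≤ C) :
    0 < C := by
  have hm0 : 0 < m := by linarith
  have hX0 : (0 : ℝ) < 2 ^ e * (1000 * m + 2000) := by positivity
  refine finish (D := 9 * 2 ^ e) (x := x) (δ := 0.04) (E := 5.5 * m + 9) (η := 1) (c3 := 15)
    (X0 := 2 ^ e * (1000 * m + 2000)) (by positivity) hK' hY2 (by norm_num) (by positivity) hX hX0
    ?_ one_pos ?_ ?_
  · have h1 : 3 * ((2 : ℝ) ^ e * (1000 * m + 2000)) * 0.04 / (2 * (9 * 2 ^ e)) =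
        (1000 * m + 2000) / 150 := by
      field_simp
      ring
    rw [h1]
    linarith
  · have h1 : (1 : ℝ) ≤ 2 ^ e := one_le_pow₀ (by norm_num)
    have h2 : (2000 : ℝ) ≤ 2 ^ e * (1000 * m + 2000) := by nlinarith
    have h3 : (2000 : ℝ) ^ 3 ≤ (2 ^ e * (1000 * m + 2000)) ^ 3 :=
      pow_le_pow_left₀ (by norm_num) h2 3
    rw [mul_one]
    exact lt_of_lt_of_le (by norm_num) h3
  · have m1 := mul_le_mul_of_nonneg_left hdens hK0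
    have m3 := mul_le_mul_of_nonneg_left hB hY0
    have m4 := mul_le_mul_of_nonneg_left hlog hY0
    have m5 : 0 ≤ Y * m := by positivity
    have m6 : K * (2 * (Hy * S2)) = 2 * (K * Hy * S2) := by ring
    rw [m6] at m1
    linarith

/-- The range of large `n`. -/
lemma large_piece (m : ℕ) (hm : 58 ≤ m) (n : ℕ) (hn1 : 2 ^ (25 * m) ≤ n)
    (hn2 : n < 2 ^ (25 * (m + 1))) : 1 ≤ cousinCount n := by
  have hn17 : 2 ^ 17 ≤ n := le_trans (Nat.pow_le_pow_right (by norm_num) (by omega)) hn1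
  obtain ⟨Y, hY1, hY2, hY3, hY4, hY5⟩ := exists_Y hn17
  have hn0 : (0 : ℝ) < n := by
    have : 0 < n := lt_of_lt_of_le (by norm_num) hn17
    exact_mod_cast this
  have hmr : (58 : ℝ) ≤ m := by exact_mod_cast hm
  have hlog := log_Y_le hn0 hn2 hY3
  have hpow : (4 : ℕ) ^ (6 * m) = 2 ^ (12 * m) := by
    rw [show (4 : ℕ) = 2 ^ 2 by norm_num, ← pow_mul]; ring_nf
  have hDle : Dz (6 * m) ≤ 9 * 2 ^ (12 * m) := by rw [← hpow]; exact Dz_le _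
  have hD9 := Dz_pos (6 * m)
  have h9D := nine_dvd_Dz (6 * m)
  have hDodd := Dz_odd (6 * m)
  have hDdvd := prime_dvd_Dz (6 * m)
  generalize Dz (6 * m) = D at hDle hD9 h9D hDodd hDdvd
  have hDn := D_lt_n hm hDle hn1
  have hlow := lower_full n (6 * m) Y D ∅ h9D hDodd (by omega)
    (by simp) (by simp) (fun p hp hpz => Or.inl (hDdvd p hp hpz)) hY1 hY4
  rw [Finset.prod_empty, Finset.card_empty, mul_one, pow_zero] at hlow
  have hK := K_ge (n := n) hD9 hDn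
  have hD0 : (0 : ℝ) < D := by exact_mod_cast (by omega : 0 < D)
  have hK0 : (0 : ℝ) ≤ (((3 * n ^ 2 + 3 * n - D - 2) / (2 * D) : ℕ) : ℝ) := Nat.cast_nonneg _
  generalize (((3 * n ^ 2 + 3 * n - D - 2) / (2 * D) : ℕ) : ℝ) = K at hK hK0 hlow
  have hY0 : (0 : ℝ) ≤ Y := Nat.cast_nonneg _
  have hB := Pr_inv_le' (z := 6 * m) (Y := Y) (by omega) (z_le_Y (z_lt_n hn1) hY1)
  have hH0 : 0 ≤ H Y := by unfold H; linarith
  have hH : H Y ≤ 11.8858 * (m + 1) := by unfold H; linarith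
  have hs2 := s2_symb Y hm
  have hdens := density hmr hH hs2 (S2_nonneg (6 * m) Y)
  have hDD : (D : ℝ) ≤ 9 * 2 ^ (12 * m) := by exact_mod_cast hDle
  have hK' := K_ge' (e := 12 * m) (sqrt_four hn0) hD0 hDD hK
  have hpos : (0 : ℝ) < cousinCount n :=
    large_final (e := 12 * m) hmr hK' hK0 hY2 hY0 (X0_le hm hn1) hdens hB hlog hlow
  have : 0 < cousinCount n := by exact_mod_cast hpos
  exact this

/-- All `n ≥ 2^1450`. -/
lemma large (n : ℕ) (hn : 2 ^ 1450 ≤ n) : 1 ≤ cousinCount n := by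
  have hn0 : n ≠ 0 := by
    have : 0 < 2 ^ 1450 := Nat.two_pow_pos 1450
    omega
  have h1 : 1450 ≤ Nat.log 2 n := (Nat.le_log_iff_pow_le (by norm_num) hn0).2 hn
  apply large_piece (Nat.log 2 n / 25) (by omega) n
  · exact le_trans (Nat.pow_le_pow_right (by norm_num) (Nat.mul_div_le _ _))
      (Nat.pow_log_le_self 2 hn0)
  · refine lt_of_lt_of_le (Nat.lt_pow_succ_log_self (b := 2) (by norm_num) n) ?_
    apply Nat.pow_le_pow_right (by norm_num)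
    omega

end Pool.Agent.MP_2543de_nt.Full
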