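import Pool.Agent.Lib.MP_2543de_nt.Full.Small
import Pool.Agent.Lib.MP_2543de_nt.Full.Data1
import Pool.Agent.Lib.MP_2543de_nt.Full.Data2
import Pool.Agent.Lib.MP_2543de_nt.Full.Data3
import Pool.Agent.Lib.MP_2543de_nt.Full.Data4
import Pool.Agent.Lib.MP_2543de_nt.Full.Pieces
import Pool.Agent.Lib.MP_2543de_nt.Full.Symbolic

namespace Pool.Agent.MP_2543de_nt.Full

lemma data_range (L : List ℕ) (n0 : ℕ) (hL : L.length = 32)
    (h : force P20 (fun P => chunks T10 P 1024 L n0) = true) (n : ℕ) (h1 : n0 ≤ n)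
    (h2 : n < n0 + 32768) : 1 ≤ cousinCount n := by
  rw [force_eq] at h
  exact chunks_spec T10_spec P20_spec 1024 L n0 h n h1 (by rw [hL]; omega)

lemma data_cases (n : ℕ) (h1 : 13 ≤ n) (h2 : n < 131085) : 1 ≤ cousinCount n := by
  rcases Nat.lt_or_ge n 32781 with h | h
  · exact data_range data1 13 (by decide +kernel) data1_check n h1 (by omega)
  rcases Nat.lt_or_ge n 65549 with h' | h'
  · exact data_range data2 32781 (by decide +kernel) data2_check n h (by omega)
  rcases Nat.lt_or_ge n 98317 with h'' | h''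
  · exact data_range data3 65549 (by decide +kernel) data3_check n h' (by omega)
  · exact data_range data4 98317 (by decide +kernel) data4_check n h'' (by omega)

/-- `C(n) ≥ 1` for every `n ≥ 2`. -/
theorem one_le_cousinCount (n : ℕ) (hn : 2 ≤ n) : 1 ≤ cousinCount n := by
  rcases Nat.lt_or_ge n 13 with h | h
  · exact small_cases n hn h
  rcases Nat.lt_or_ge n 131085 with h1 | h1
  · exact data_cases n h h1
  have h17 : 2 ^ 17 ≤ n := by
    have : (2 : ℕ) ^ 17 = 131072 := by norm_num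
    omega
  rcases Nat.lt_or_ge n (2 ^ 19) with h2 | h2
  · exact piece1 n h17 h2
  rcases Nat.lt_or_ge n (2 ^ 27) with h3 | h3
  · exact piece2 n h2 h3
  rcases Nat.lt_or_ge n (2 ^ 42) with h4 | h4
  · exact piece3 n h3 h4
  rcases Nat.lt_or_ge n (2 ^ 95) with h5 | h5
  · exact piece4 n h4 h5
  rcases Nat.lt_or_ge n (2 ^ 240) with h6 | h6
  · exact piece5 n h5 h6
  rcases Nat.lt_or_ge n (2 ^ 450) with h7 | h7
  · exact piece6 n h6 h7
  rcases Nat.lt_or_ge n (2 ^ 935) with h8 | h8
  · exact piece7 n h7 h8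
  rcases Nat.lt_or_ge n (2 ^ 1500) with h9 | h9
  · exact piece8 n h8 h9
  · exact large n (le_trans (Nat.pow_le_pow_right (by norm_num) (by norm_num)) h9)

end Pool.Agent.MP_2543de_nt.Full
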