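import Pool.Agent.Lib.MP_2543de_nt.Full.Parts

namespace Pool.Agent.MP_2543de_nt.Full

open Finset

/-- if `m` is coprime to `T` then `m ∣ a`, tested -/
noncomputable def ck (T a m : ℕ) : Bool :=
  bite (Nat.beq (Nat.gcd m T) 1) (Nat.beq (a % m) 0) true

lemma ck_spec {T a m : ℕ} (h : ck T a m = true) (hm : Nat.Coprime m T) : m ∣ a := by
  unfold ck at h
  have hb : Nat.beq (Nat.gcd m T) 1 = true := by rw [hm]; rfl
  rw [hb, bite_true] at h
  exact Nat.dvd_of_mod_eq_zero (Nat.eq_of_beq_eq_true h)

/-- test for the integers `m, m+1, ..., m+k-1` -/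
noncomputable def allck (T a : ℕ) (k : ℕ) : ℕ → Bool :=
  Nat.rec (fun _ => true) (fun _ ih m => band (ck T a m) (force (Nat.succ m) ih)) k

lemma allck_spec {T a : ℕ} : ∀ k n, allck T a k n = true → ∀ m, n ≤ m → m < n + k →
    Nat.Coprime m T → m ∣ a := by
  intro k
  induction k with
  | zero => intro n _ m h1 h2; omega
  | succ k ih =>
    intro n h m h1 h2 hm
    have h' : band (ck T a n) (force (Nat.succ n) (allck T a k)) = true := h
    rw [band_iff, force_eq] at h'
    rcases Nat.lt_or_ge n m with h3 | h3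
    · exact ih _ h'.2 m h3 (by omega) hm
    · have : m = n := by omega
      subst this
      exact ck_spec h'.1 hm

/-- test for the integers coprime to `30` in `[b, b + 30 k)` -/
noncomputable def rows (T a : ℕ) (k : ℕ) : ℕ → Bool :=
  Nat.rec (fun _ => true) (fun _ ih b =>
    band (ck T a (b + 1)) (band (ck T a (b + 7)) (band (ck T a (b + 11)) (band (ck T a (b + 13))
    (band (ck T a (b + 17)) (band (ck T a (b + 19)) (band (ck T a (b + 23)) (band (ck T a (b + 29))
    (force (b + 30) ih))))))))) k

lemma rows_spec {T a : ℕ} : ∀ k b, rows T a k b = true → 30 ∣ b → ∀ m, b ≤ m → m < b + 30 * k →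
    ¬ 2 ∣ m → ¬ 3 ∣ m → ¬ 5 ∣ m → Nat.Coprime m T → m ∣ a := by
  intro k
  induction k with
  | zero => intro b _ _ m h1 h2; omega
  | succ k ih =>
    intro b h hb m h1 h2 m2 m3 m5 hm
    have h' : band (ck T a (b + 1)) (band (ck T a (b + 7)) (band (ck T a (b + 11))
      (band (ck T a (b + 13)) (band (ck T a (b + 17)) (band (ck T a (b + 19))
      (band (ck T a (b + 23)) (band (ck T a (b + 29))
      (force (b + 30) (rows T a k))))))))) = true := h
    rw [band_iff, band_iff, band_iff, band_iff, band_iff, band_iff, band_iff, band_iff,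
      force_eq] at h'
    obtain ⟨c1, c7, c11, c13, c17, c19, c23, c29, hr⟩ := h'
    rcases Nat.lt_or_ge m (b + 30) with h3 | h3
    · have h4 : m = b + 1 ∨ m = b + 7 ∨ m = b + 11 ∨ m = b + 13 ∨ m = b + 17 ∨ m = b + 19 ∨
          m = b + 23 ∨ m = b + 29 := by
        obtain ⟨b', rfl⟩ := hb
        obtain ⟨r, rfl⟩ := Nat.exists_eq_add_of_le h1
        have hr : r < 30 := by omega
        interval_cases r <;> omega
      rcases h4 with h4 | h4 | h4 | h4 | h4 | h4 | h4 | h4
      · subst h4; exact ck_spec c1 hm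
      · subst h4; exact ck_spec c7 hm
      · subst h4; exact ck_spec c11 hm
      · subst h4; exact ck_spec c13 hm
      · subst h4; exact ck_spec c17 hm
      · subst h4; exact ck_spec c19 hm
      · subst h4; exact ck_spec c23 hm
      · subst h4; exact ck_spec c29 hm
    · exact ih (b + 30) hr (by omega) m h3 (by omega) m2 m3 m5 hm

/-- the test for the list of factors -/
noncomputable def rowsL (T k : ℕ) (L : List ℕ) : ℕ → Bool :=
  List.rec (fun _ => true) (fun a _ ih b => band (rows T a k b) (force (b + 30 * k) ih)) L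

lemma rowsL_spec {T k : ℕ} : ∀ (L : List ℕ) b, rowsL T k L b = true → 30 ∣ b →
    ∀ m, b ≤ m → m < b + 30 * k * L.length →
    ¬ 2 ∣ m → ¬ 3 ∣ m → ¬ 5 ∣ m → Nat.Coprime m T → ∃ a ∈ L, m ∣ a := by
  intro L
  induction L with
  | nil => intro b _ _ m h1 h2; simp at h2; omega
  | cons a L ih =>
    intro b h hb m h1 h2 m2 m3 m5 hm
    have h' : band (rows T a k b) (force (b + 30 * k) (rowsL T k L)) = true := h
    rw [band_iff, force_eq] at h'
    rcases Nat.lt_or_ge m (b + 30 * k) with h3 | h3
    · exact ⟨a, List.mem_cons_self, rows_spec k b h'.1 hb m h1 h3 m2 m3 m5 hm⟩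
    · have h4 : 30 ∣ b + 30 * k := by omega
      obtain ⟨a', ha', hd⟩ := ih (b + 30 * k) h'.2 h4 m h3 (by
        rw [List.length_cons] at h2
        have : 30 * k * (L.length + 1) = 30 * k * L.length + 30 * k := by ring
        omega) m2 m3 m5 hm
      exact ⟨a', List.mem_cons_of_mem _ ha', hd⟩

/-- product of a list -/
noncomputable def lprod (L : List ℕ) : ℕ := List.rec 1 (fun a _ ih => Nat.mul a ih) L

lemma dvd_lprod {a : ℕ} {L : List ℕ} (h : a ∈ L) : a ∣ lprod L := by
  induction L with
  | nil => simp at h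
  | cons b L ih =>
    have e : lprod (b :: L) = b * lprod L := rfl
    rw [e]
    rcases List.mem_cons.1 h with h | h
    · subst h; exact dvd_mul_right _ _
    · exact dvd_mul_of_dvd_right (ih h) _

lemma check1 : allck 200560490130 T10 992 32 = true := by decide +kernel

lemma check2 : Nat.factorial 1023 % T10 = 0 := by decide +kernel

lemma check3 : Nat.factorial 31 % 200560490130 = 0 := by decide +kernel

lemma check4 : rowsL T10 546 parts 1020 = true := by decide +kernel

lemma check0 : T10 % 200560490130 = 0 := by decide +kernel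

lemma T10_spec : ∀ q, q.Prime → q < 2 ^ 10 → q ∣ T10 := by
  intro q hq hlt
  rcases Nat.lt_or_ge q 32 with h | h
  · have h1 : q ∣ 200560490130 := by
      interval_cases q <;> first | (norm_num; done) | exact absurd hq (by norm_num)
    exact h1.trans (Nat.dvd_of_mod_eq_zero check0)
  · apply allck_spec 992 32 check1 q h (by omega)
    rw [Nat.Prime.coprime_iff_not_dvd hq]
    intro hd
    have h1 : q ∣ Nat.factorial 31 := hd.trans (Nat.dvd_of_mod_eq_zero check3)
    have := (hq.dvd_factorial).1 h1
    omega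

/-- the product of the primes below `2^20` (and a few more) -/
noncomputable def P20 : ℕ := Nat.mul T10 (lprod parts)

lemma P20_spec : ∀ q, q.Prime → q < 2 ^ 20 → q ∣ P20 := by
  intro q hq hlt
  have e : P20 = T10 * lprod parts := rfl
  rw [e]
  rcases Nat.lt_or_ge q 1024 with h | h
  · exact dvd_mul_of_dvd_left (T10_spec q hq h) _
  · have hcop : Nat.Coprime q T10 := by
      rw [Nat.Prime.coprime_iff_not_dvd hq]
      intro hd
      have h1 : q ∣ Nat.factorial 1023 := hd.trans (Nat.dvd_of_mod_eq_zero check2)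
      have := (hq.dvd_factorial).1 h1
      omega
    have hnd : ∀ p, p.Prime → p < 1024 → ¬ p ∣ q := by
      intro p hp hp' hd
      have := (Nat.prime_dvd_prime_iff_eq hp hq).1 hd
      omega
    obtain ⟨a, ha, hd⟩ := rowsL_spec parts 1020 check4 (by norm_num) q (by omega)
      (by simp only [parts, List.length_cons, List.length_nil]; omega)
      (hnd 2 (by norm_num) (by norm_num)) (hnd 3 (by norm_num) (by norm_num))
      (hnd 5 (by norm_num) (by norm_num)) hcop
    exact dvd_mul_of_dvd_right (hd.trans (dvd_lprod ha)) _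

end Pool.Agent.MP_2543de_nt.Full
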