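import Pool.Agent.Lib.MP_2543de_nt.Full.Config

namespace Pool.Agent.MP_2543de_nt.Full

open Finset

lemma exists_Y {n : ℕ} (hn : 2 ^ 17 ≤ n) : ∃ Y : ℕ, (n + 1) ^ 3 ≤ Y ^ 2 ∧
    (Y : ℝ) ≤ 1.0001 * (Real.sqrt n) ^ 3 ∧ Real.log Y ≤ 3 / 2 * Real.log n + 0.0001 ∧
    10 ≤ Real.log Y ∧ 2 ^ 25 ≤ Y := by
  have hnr : (131072 : ℝ) ≤ n := by
    have : (131072 : ℕ) ≤ n := by norm_num at hn; exact hn
    exact_mod_cast this
  have hn0 : (0 : ℝ) < n := by linarith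
  set x := Real.sqrt n with hx
  have hx0 : 0 < x := Real.sqrt_pos.2 hn0
  have hx2 : x ^ 2 = n := Real.sq_sqrt hn0.le
  have hx362 : (362 : ℝ) ≤ x := by
    rw [hx]
    apply Real.le_sqrt_of_sq_le
    linarith
  set Y := ⌈Real.sqrt (((n : ℝ) + 1) ^ 3)⌉₊ with hY
  have h1 : Real.sqrt (((n : ℝ) + 1) ^ 3) ≤ Y := Nat.le_ceil _
  have h1' : (Y : ℝ) < Real.sqrt (((n : ℝ) + 1) ^ 3) + 1 := Nat.ceil_lt_add_one (by positivity)
  have h2 : ((n : ℝ) + 1) ^ 3 ≤ (Y : ℝ) ^ 2 := by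
    have h3 : Real.sqrt (((n : ℝ) + 1) ^ 3) ^ 2 = ((n : ℝ) + 1) ^ 3 := Real.sq_sqrt (by positivity)
    rw [← h3]
    exact pow_le_pow_left₀ (Real.sqrt_nonneg _) h1 2
  have h4 : Real.sqrt (((n : ℝ) + 1) ^ 3) ≤ 1.00005 * x ^ 3 := by
    rw [Real.sqrt_le_left (by positivity)]
    have e : (1.00005 * x ^ 3) ^ 2 = 1.00005 ^ 2 * (n : ℝ) ^ 3 := by rw [← hx2]; ring
    rw [e]
    have h5 : ((n : ℝ) + 1) ≤ 1.00001 * n := by linarith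
    calc ((n : ℝ) + 1) ^ 3 ≤ (1.00001 * n) ^ 3 := pow_le_pow_left₀ (by positivity) h5 3
      _ = 1.00001 ^ 3 * (n : ℝ) ^ 3 := by ring
      _ ≤ _ := by
        apply mul_le_mul_of_nonneg_right _ (by positivity)
        norm_num
  have hx3 : (47000000 : ℝ) ≤ x ^ 3 := by
    calc (47000000 : ℝ) ≤ 362 ^ 3 := by norm_num
      _ ≤ x ^ 3 := pow_le_pow_left₀ (by norm_num) hx362 3
  have h5 : (Y : ℝ) ≤ 1.0001 * x ^ 3 := by linarith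
  have h6 : (2 : ℕ) ^ 25 ≤ Y := by
    have h7 : (2 : ℝ) ^ 25 ≤ Y := by
      apply le_trans _ h1
      apply Real.le_sqrt_of_sq_le
      calc ((2 : ℝ) ^ 25) ^ 2 ≤ 131072 ^ 3 := by norm_num
        _ ≤ ((n : ℝ) + 1) ^ 3 := pow_le_pow_left₀ (by norm_num) (by linarith) 3
    exact_mod_cast h7
  have hYr : (0 : ℝ) < Y := by
    have : (0 : ℕ) < Y := lt_of_lt_of_le (by norm_num) h6
    exact_mod_cast this
  refine ⟨Y, by exact_mod_cast h2, h5, ?_, ?_, h6⟩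
  · have h8 : Real.log Y ≤ Real.log (1.0001 * x ^ 3) := Real.log_le_log hYr h5
    rw [Real.log_mul (by norm_num) (by positivity), Real.log_pow] at h8
    have h9 : Real.log 1.0001 ≤ 1.0001 - 1 := Real.log_le_sub_one_of_pos (by norm_num)
    have h10 : Real.log n = 2 * Real.log x := by
      rw [← hx2, Real.log_pow]; norm_num
    rw [h10]
    push_cast at h8
    linarith
  · have h7 : (2 : ℝ) ^ 25 ≤ Y := by exact_mod_cast h6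
    have h8 := Real.log_le_log (by positivity) h7
    rw [Real.log_pow] at h8
    have := Real.log_two_gt_d9
    push_cast at h8
    linarith

lemma K_ge {n D : ℕ} (hD : 9 ≤ D) (hDn : D + 1 ≤ n) :
    3 * (n : ℝ) ^ 2 / (2 * D) ≤ (((3 * n ^ 2 + 3 * n - D - 2) / (2 * D) : ℕ) : ℝ) := by
  have hDpos : (0 : ℝ) < D := by exact_mod_cast (by omega : 0 < D)
  rw [div_le_iff₀ (by positivity)]
  have e1 : 3 * n ^ 2 + 3 * n - D - 2 < 2 * D * ((3 * n ^ 2 + 3 * n - D - 2) / (2 * D) + 1) :=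
    Nat.lt_mul_div_succ (3 * n ^ 2 + 3 * n - D - 2) (show 0 < 2 * D by omega)
  set K := (3 * n ^ 2 + 3 * n - D - 2) / (2 * D) with hK
  have e2 : 3 * n ^ 2 + 3 * n < 2 * D * (K + 1) + D + 2 := by omega
  have e3 : (3 * (n : ℝ) ^ 2 + 3 * n) < 2 * D * (K + 1) + D + 2 := by exact_mod_cast e2
  have e4 : (D : ℝ) + 1 ≤ n := by exact_mod_cast hDn
  linarith

lemma finish {x δ E X0 η c3 K Y C D : ℝ} (hD : 0 < D)
    (hK : 3 * x ^ 4 / (2 * D) ≤ K) (hY : Y ≤ 1.0001 * x ^ 3) (hδ : 0 < δ) (hE : 0 ≤ E)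
    (hX : X0 ≤ x) (hX0 : 0 < X0) (hη : η ≤ 3 * X0 * δ / (2 * D) - 1.0001 * E) (hη0 : 0 < η)
    (hf : c3 < X0 ^ 3 * η) (hC : K * δ - c3 - Y * E ≤ C) : 0 < C := by
  have hx0 : 0 < x := lt_of_lt_of_le hX0 hX
  have h1 : 3 * x ^ 4 / (2 * D) * δ ≤ K * δ := mul_le_mul_of_nonneg_right hK hδ.le
  have h2 : Y * E ≤ 1.0001 * x ^ 3 * E := mul_le_mul_of_nonneg_right hY hE
  have h3 : 3 * X0 * δ / (2 * D) ≤ 3 * x * δ / (2 * D) := by
    apply div_le_div_of_nonneg_right _ (by positivity)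
    have := mul_le_mul_of_nonneg_right hX hδ.le
    nlinarith
  have h4 : X0 ^ 3 ≤ x ^ 3 := pow_le_pow_left₀ hX0.le hX 3
  have h5 : X0 ^ 3 * η ≤ x ^ 3 * η := mul_le_mul_of_nonneg_right h4 hη0.le
  have h6 : x ^ 3 * η ≤ x ^ 3 * (3 * x * δ / (2 * D) - 1.0001 * E) :=
    mul_le_mul_of_nonneg_left (by linarith) (by positivity)
  have h7 : x ^ 3 * (3 * x * δ / (2 * D) - 1.0001 * E) =
      3 * x ^ 4 / (2 * D) * δ - 1.0001 * x ^ 3 * E := by ring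
  linarith

/-- The range lemma. -/
lemma range_piece (a b y z t : ℕ) (ha : 17 ≤ a) (hy : 3 ≤ y) (hyz : y ≤ z) (hz : 53 ≤ z)
    (hzt : z ≤ 210 * t) (ht : 210 * t ≤ 2 ^ 25) {g s2 s1 ℓ δ E X0 η : ℝ} {c : ℕ}
    (hg : g * (pr pb y 0 (z - y) : ℝ) ≤ (pr pb y 2 (z - y) : ℝ))
    (hc : cn pb y (z - y) ≤ c)
    (hs2 : (hs2 pb z (210 * t - z) : ℝ) / 10 ^ 12 +
      8 / 35 * (1 / ((210 * t : ℕ) : ℝ)) + 53 / 35 * (1 / ((210 * t + 1 : ℕ) : ℝ) ^ 2) ≤ s2)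
    (hs1 : (hs pb z (210 * t - z) : ℝ) / 10 ^ 9 +
      8 / 35 * (0 - Real.log ((210 * t : ℕ) : ℝ)) +
      53 / 35 * (1 / ((210 * t + 1 : ℕ) : ℝ)) ≤ s1)
    (hs20 : 0 ≤ s2)
    (hDa : Dz y + 1 ≤ 2 ^ a)
    (hℓ : 3 / 2 * (b * 0.6931472) + 0.0001 ≤ ℓ)
    (hδ : δ ≤ g - 2 * (16 / 35 * ℓ - 0.4622) * s2) (hδ0 : 0 < δ)
    (hE : 16 / 35 * (247 / 70) + 32 / 35 * (s1 + 8 / 35 * ℓ) ≤ E) (hE0 : 0 ≤ E)
    (hX0 : 0 < X0) (hXa : X0 ^ 2 ≤ 2 ^ a)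
    (hη : η ≤ 3 * X0 * δ / (2 * (Dz y : ℝ)) - 1.0001 * E) (hη0 : 0 < η)
    (hf : 3 ^ c + 14 < X0 ^ 3 * η) :
    ∀ n, 2 ^ a ≤ n → n < 2 ^ b → 1 ≤ cousinCount n := by
  intro n hn1 hn2
  have hn17 : 2 ^ 17 ≤ n := le_trans (Nat.pow_le_pow_right (by norm_num) ha) hn1
  obtain ⟨Y, hY1, hY2, hY3, hY4, hY5⟩ := exists_Y hn17
  have hD9 : 9 ≤ Dz y := Dz_pos y
  have hDr : (0 : ℝ) < (Dz y : ℝ) := by exact_mod_cast (by omega : 0 < Dz y)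
  have hn0 : (0 : ℝ) < n := by
    have : 0 < n := lt_of_lt_of_le (by norm_num) hn17
    exact_mod_cast this
  have hlog : Real.log Y ≤ ℓ := by
    have h1 : (n : ℝ) ≤ 2 ^ b := by exact_mod_cast hn2.le
    have h2 := Real.log_le_log hn0 h1
    rw [Real.log_pow] at h2
    have h3 := Real.log_two_lt_d9
    have h4 : (b : ℝ) * Real.log 2 ≤ b * 0.6931472 := by
      apply mul_le_mul_of_nonneg_left _ (Nat.cast_nonneg b)
      linarith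
    linarith
  have hlow := lower_config n y z t Y hy hyz hz hzt hY1 hY4 (ht.trans hY5) hg hc hs2 hs1
  have hx2 : (Real.sqrt n) ^ 2 = n := Real.sq_sqrt hn0.le
  have hx4 : (Real.sqrt n) ^ 4 = (n : ℝ) ^ 2 := by
    calc (Real.sqrt n) ^ 4 = ((Real.sqrt n) ^ 2) ^ 2 := by ring
      _ = _ := by rw [hx2]
  have hK := K_ge (n := n) hD9 (hDa.trans hn1)
  have hK0 : (0 : ℝ) ≤ (((3 * n ^ 2 + 3 * n - Dz y - 2) / (2 * Dz y) : ℕ) : ℝ) := Nat.cast_nonneg _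
  have hY0 : (0 : ℝ) ≤ Y := Nat.cast_nonneg _
  have hδ' : δ ≤ g - 2 * H Y * s2 := by
    have hH : H Y ≤ 16 / 35 * ℓ - 0.4622 := by unfold H; linarith
    have := mul_le_mul_of_nonneg_right hH hs20
    linarith
  have hE' : 16 / 35 * (247 / 70) + 32 / 35 * (s1 + 8 / 35 * Real.log Y) ≤ E := by linarith
  have m1 := mul_le_mul_of_nonneg_left hδ' hK0
  have m2 := mul_le_mul_of_nonneg_left hE' hY0
  have hX : X0 ≤ Real.sqrt n := by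
    apply Real.le_sqrt_of_sq_le
    refine hXa.trans ?_
    exact_mod_cast hn1
  have hpos : (0 : ℝ) < cousinCount n := by
    have hK' : 3 * (Real.sqrt n) ^ 4 / (2 * (Dz y : ℝ)) ≤
        (((3 * n ^ 2 + 3 * n - Dz y - 2) / (2 * Dz y) : ℕ) : ℝ) := by rw [hx4]; exact hK
    refine finish (x := Real.sqrt n) (c3 := 3 ^ c + 14) hDr hK' hY2 hδ0 hE0 hX
      hX0 hη hη0 hf ?_
    linarith
  have : 0 < cousinCount n := by exact_mod_cast hpos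
  exact this

end Pool.Agent.MP_2543de_nt.Full
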