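import Pool.Agent.Lib.MP_2543de_nt.Sums
import Pool.Agent.Lib.MP_2543de_nt.Full.Est

namespace Pool.Agent.MP_2543de_nt.Full

open Finset

lemma card_split (P : ℕ → Prop) [DecidablePred P] {a b : ℕ} (hab : a ≤ b) :
    ((Finset.Ioc 0 b).filter P).card =
      ((Finset.Ioc 0 a).filter P).card + ((Finset.Ioc a b).filter P).card := by
  rw [← Finset.card_union_of_disjoint, ← Finset.filter_union,
    Finset.Ioc_union_Ioc_eq_Ioc (Nat.zero_le a) hab]
  rw [Finset.disjoint_left]
  intro x hx hy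
  have h1 := Finset.mem_Ioc.1 (Finset.mem_filter.1 hx).1
  have h2 := Finset.mem_Ioc.1 (Finset.mem_filter.1 hy).1
  omega

lemma card_shift (P : ℕ → Prop) [DecidablePred P] (hper : ∀ m, P (m + 210) ↔ P m) (t s : ℕ) :
    ((Finset.Ioc (210 * t) (210 * t + s)).filter P).card = ((Finset.Ioc 0 s).filter P).card := by
  have h1 := card_periodic P 210 hper t s
  have h2 := card_periodic P 210 hper t 0
  have h3 := card_split P (show 210 * t ≤ 210 * t + s by omega)
  simp only [add_zero, Finset.Ioc_self, Finset.filter_empty, Finset.card_empty] at h2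
  omega

lemma disc_al {p : ℕ} (hp : Nat.Coprime p 210) (t M : ℕ) (hM : 210 * t ≤ M) :
    (((Finset.Ioc (210 * t) M).filter (fun k => al p k = true)).card : ℝ) ≤
      8 / 35 * ((M : ℝ) - (210 * t : ℕ)) + 71 / 35 := by
  obtain ⟨s, rfl⟩ := Nat.exists_eq_add_of_le hM
  rw [card_shift _ (al_per p)]
  have h := Ks_card hp s
  have h' : (210 : ℝ) * ((Finset.Ioc 0 s).filter (fun k => al p k = true)).card ≤
      48 * s + 426 := by exact_mod_cast h
  push_cast
  linarith

lemma disc_co (t M : ℕ) (hM : 210 * t ≤ M) :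
    (((Finset.Ioc (210 * t) M).filter (fun k => co k = true)).card : ℝ) ≤
      8 / 35 * ((M : ℝ) - (210 * t : ℕ)) + 53 / 35 := by
  obtain ⟨s, rfl⟩ := Nat.exists_eq_add_of_le hM
  rw [card_shift _ co_per]
  have h := co_card s
  have h' : (210 : ℝ) * ((Finset.Ioc 0 s).filter (fun k => co k = true)).card ≤
      48 * s + 318 := by exact_mod_cast h
  push_cast
  linarith

lemma disc_co' (z M : ℕ) (hM : z ≤ M) :
    (((Finset.Ioc z M).filter (fun k => co k = true)).card : ℝ) ≤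
      8 / 35 * ((M : ℝ) - z) + 106 / 35 := by
  have h := co_card M
  have h0 := co_cardL z
  have h1 := card_split (fun k => co k = true) hM
  have h2 : 210 * ((Finset.Ioc z M).filter (fun k => co k = true)).card + 48 * z ≤
      48 * M + 318 + 318 := by omega
  have h3 : (210 : ℝ) * ((Finset.Ioc z M).filter (fun k => co k = true)).card + 48 * z ≤
      48 * M + 318 + 318 := by exact_mod_cast h2
  linarith

lemma inv_anti (z : ℕ) : ∀ m, z < m → (1 : ℝ) / ((m + 1 : ℕ) : ℝ) ≤ 1 / (m : ℝ) := by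
  intro m hm
  have : (0 : ℝ) < m := by exact_mod_cast (by omega : 0 < m)
  apply one_div_le_one_div_of_le this
  push_cast; linarith

lemma inv_sq_anti (z : ℕ) :
    ∀ m, z < m → (1 : ℝ) / ((m + 1 : ℕ) : ℝ) ^ 2 ≤ 1 / (m : ℝ) ^ 2 := by
  intro m hm
  have : (0 : ℝ) < m := by exact_mod_cast (by omega : 0 < m)
  apply one_div_le_one_div_of_le (by positivity)
  push_cast; nlinarith

lemma Ks_mono {p M M' : ℕ} (h : M ≤ M') : Ks p M ⊆ Ks p M' := by
  apply Finset.filter_subset_filter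
  exact Finset.Ioc_subset_Ioc_right h

lemma Rs_mono {M M' : ℕ} (h : M ≤ M') : Rs M ⊆ Rs M' := by
  apply Finset.filter_subset_filter
  exact Finset.Ioc_subset_Ioc_right h

lemma log_lower : (10 : ℝ) ≤ Real.log (53 * 420) := by
  rw [Real.le_log_iff_exp_le (by norm_num)]
  have h1 := Real.exp_one_lt_d9
  have h2 : Real.exp 10 = Real.exp 1 ^ 10 := by
    rw [← Real.exp_nat_mul]; norm_num
  rw [h2]
  calc Real.exp 1 ^ 10 ≤ 2.7182818286 ^ 10 :=
        pow_le_pow_left₀ (Real.exp_pos 1).le h1.le 10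
    _ ≤ 53 * 420 := by norm_num

lemma log_M {M Y p : ℕ} (hp : 53 < p) (hM : M ≤ Y / p) (hM0 : 420 ≤ M) :
    Real.log M - Real.log 420 ≤ Real.log Y - 10 := by
  have h1 : M * p ≤ Y := (Nat.le_div_iff_mul_le (by omega)).1 hM
  have h2 : (M : ℝ) * p ≤ Y := by exact_mod_cast h1
  have hM' : (0 : ℝ) < M := by exact_mod_cast (by omega : 0 < M)
  have hp' : (53 : ℝ) ≤ p := by exact_mod_cast hp.le
  have h3 : (M : ℝ) * 53 ≤ Y := by nlinarith
  have h4 : Real.log (M * 53) ≤ Real.log Y := Real.log_le_log (by positivity) h3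
  rw [Real.log_mul hM'.ne' (by norm_num)] at h4
  have h5 := log_lower
  rw [Real.log_mul (by norm_num) (by norm_num)] at h5
  linarith

lemma Ks_sum {p : ℕ} (hp : Nat.Coprime p 210) (hp53 : 53 < p) {M Y : ℕ} (hM : M ≤ Y / p)
    (hY : 10 ≤ Real.log Y) :
    ∑ k ∈ Ks p M, (1 : ℝ) / k ≤ 1.6471 + 8 / 35 * (Real.log Y - 10) := by
  rcases Nat.lt_or_ge M 420 with h | h
  · have h1 : ∑ k ∈ Ks p M, (1 : ℝ) / k ≤ ∑ k ∈ Ks p 420, (1 : ℝ) / k :=
      Finset.sum_le_sum_of_subset_of_nonneg (Ks_mono h.le) (fun _ _ _ => by positivity)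
    have h2 := Ks_sum420 hp
    linarith
  · have h1 := disc_sum (fun k => al p k = true) (fun m => (1 : ℝ) / m) (ρ := 8 / 35)
      (c := 71 / 35) (210 * 2) (inv_anti _) (fun m _ => by positivity) (disc_al hp 2) M (by omega)
    have h2 := sum_inv_le 420 M (by norm_num) h
    have h3 := log_M hp53 hM h
    have e : Ks p M = Ks p 420 ∪ (Finset.Ioc (210 * 2) M).filter (fun k => al p k = true) := by
      unfold Ks
      rw [← Finset.filter_union, Finset.Ioc_union_Ioc_eq_Ioc (by norm_num) h]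
    have hd : Disjoint (Ks p 420) ((Finset.Ioc (210 * 2) M).filter (fun k => al p k = true)) := by
      rw [Finset.disjoint_left]
      intro x hx hy
      have h1 := Finset.mem_Ioc.1 (Finset.mem_filter.1 hx).1
      have h2 := Finset.mem_Ioc.1 (Finset.mem_filter.1 hy).1
      omega
    rw [e, Finset.sum_union hd]
    have h4 := Ks_sum420 hp
    norm_num at h1 h2 h4 ⊢
    linarith

lemma Rs_sum {p M Y : ℕ} (hp53 : 53 < p) (hM : M ≤ Y / p) (hY : 10 ≤ Real.log Y) :
    ∑ r ∈ Rs M, (1 : ℝ) / r ≤ 1.4621 + 8 / 35 * (Real.log Y - 10) := by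
  rcases Nat.lt_or_ge M 420 with h | h
  · have h1 : ∑ k ∈ Rs M, (1 : ℝ) / k ≤ ∑ k ∈ Rs 420, (1 : ℝ) / k :=
      Finset.sum_le_sum_of_subset_of_nonneg (Rs_mono h.le) (fun _ _ _ => by positivity)
    have h2 := Rs_sum420
    linarith
  · have h1 := disc_sum (fun k => co k = true) (fun m => (1 : ℝ) / m) (ρ := 8 / 35)
      (c := 53 / 35) (210 * 2) (inv_anti _) (fun m _ => by positivity) (disc_co 2) M (by omega)
    have h2 := sum_inv_le 420 M (by norm_num) h
    have h3 := log_M hp53 hM h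
    have e : Rs M ⊆ Rs 420 ∪ (Finset.Ioc (210 * 2) M).filter (fun k => co k = true) := by
      intro r hr
      obtain ⟨h5, h6⟩ := Finset.mem_filter.1 hr
      have h5' := Finset.mem_Ioc.1 h5
      rcases Nat.lt_or_ge 420 r with h7 | h7
      · apply Finset.mem_union_right
        refine Finset.mem_filter.2 ⟨Finset.mem_Ioc.2 ⟨h7, h5'.2⟩, ?_⟩
        rcases h6 with h8 | h8
        · omega
        · exact h8.2
      · apply Finset.mem_union_left
        exact Finset.mem_filter.2 ⟨Finset.mem_Ioc.2 ⟨h5'.1, h7⟩, h6⟩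
    have hd : Disjoint (Rs 420) ((Finset.Ioc (210 * 2) M).filter (fun k => co k = true)) := by
      rw [Finset.disjoint_left]
      intro x hx hy
      have h1 := Finset.mem_Ioc.1 (Finset.mem_filter.1 hx).1
      have h2 := Finset.mem_Ioc.1 (Finset.mem_filter.1 hy).1
      omega
    have h5 : ∑ r ∈ Rs M, (1 : ℝ) / r ≤
        ∑ r ∈ Rs 420 ∪ (Finset.Ioc (210 * 2) M).filter (fun k => co k = true), (1 : ℝ) / r :=
      Finset.sum_le_sum_of_subset_of_nonneg e (fun _ _ _ => by positivity)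
    rw [Finset.sum_union hd] at h5
    have h4 := Rs_sum420
    norm_num at h1 h2 h4 h5 ⊢
    linarith

/-- `H`: the bound of `1 + ∑ 1/k + ∑ 1/r`. -/
noncomputable def H (Y : ℕ) : ℝ := 16 / 35 * Real.log Y - 0.4622

/-- Real upper bound for the bad count. -/
lemma bad_real {D e a K Y z : ℕ} (he : Nat.Coprime e (2 * D)) (hz53 : 53 ≤ z)
    (hYl : 10 ≤ Real.log Y)
    (G : Finset ℕ) (hG : G ⊆ Finset.Ico a (a + K))
    (hz : ∀ j ∈ G, ∀ p, p.Prime → p ≤ z → ¬ p ∣ 2 * D * j + e)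
    (hY : ∀ j ∈ G, 0 < 2 * D * j + e ∧ 2 * D * j + e < Y ^ 2) :
    ((G.filter (fun j => ¬ IsCyc (2 * D * j + e))).card : ℝ) ≤
      K * H Y * (∑ p ∈ Pr z Y, (1 : ℝ) / (p : ℝ) ^ 2) +
        (8 / 35 * (247 / 70) * Y + 16 / 35 * Y * (∑ p ∈ Pr z Y, (1 : ℝ) / (p : ℝ)) + 7) := by
  have h0 := bad_card he hz53 G hG hz hY
  have h1 : ((G.filter (fun j => ¬ IsCyc (2 * D * j + e))).card : ℝ) ≤
      ∑ p ∈ Pr z Y,
        ((((K / p ^ 2 : ℕ) : ℝ) + 1) + ∑ k ∈ Ks p (Y / p), (((K / (p * (1 + p * k)) : ℕ) : ℝ) + 1)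
          + ∑ r ∈ Rs (Y / p), (((K / (p ^ 2 * r) : ℕ) : ℝ) + 1)) := by
    exact_mod_cast h0
  refine h1.trans ?_
  have h2 : ∀ p ∈ Pr z Y,
      ((((K / p ^ 2 : ℕ) : ℝ) + 1) + ∑ k ∈ Ks p (Y / p), (((K / (p * (1 + p * k)) : ℕ) : ℝ) + 1)
          + ∑ r ∈ Rs (Y / p), (((K / (p ^ 2 * r) : ℕ) : ℝ) + 1)) ≤
      K * H Y * ((1 : ℝ) / (p : ℝ) ^ 2) + (1 + (if 2 ≤ Y / p then (71 / 35 : ℝ) else 0) + 53 / 35 +
        16 / 35 * Y * ((1 : ℝ) / p)) := by
    intro p hp
    obtain ⟨hp1, hp2, hpp⟩ := mem_Pr.1 hp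
    have hcop := prime_co hpp (by omega)
    have hp0 : (0 : ℝ) < p := by exact_mod_cast hpp.pos
    have a1 : ((K / p ^ 2 : ℕ) : ℝ) ≤ K * (1 / (p : ℝ) ^ 2) := by
      have := natdiv_le K (p ^ 2); push_cast at this; exact this
    have hYp : ((Y / p : ℕ) : ℝ) ≤ Y * (1 / (p : ℝ)) := natdiv_le Y p
    have a2 : ∑ k ∈ Ks p (Y / p), (((K / (p * (1 + p * k)) : ℕ) : ℝ) + 1) ≤
        (K * (1 / (p : ℝ) ^ 2)) * (1.6471 + 8 / 35 * (Real.log Y - 10)) +
          ((if 2 ≤ Y / p then (71 / 35 : ℝ) else 0) + 8 / 35 * (Y * (1 / (p : ℝ)))) := by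
      rw [Finset.sum_add_distrib]
      apply add_le_add
      · calc ∑ k ∈ Ks p (Y / p), ((K / (p * (1 + p * k)) : ℕ) : ℝ)
            ≤ ∑ k ∈ Ks p (Y / p), (K * (1 / (p : ℝ) ^ 2)) * ((1 : ℝ) / k) := by
              apply Finset.sum_le_sum
              intro k hk
              have hk' := Finset.mem_Ioc.1 (Finset.mem_filter.1 hk).1
              have hk0 : (0 : ℝ) < k := by exact_mod_cast hk'.1
              refine (natdiv_le K _).trans ?_
              push_cast
              have e : (K : ℝ) * (1 / (p : ℝ) ^ 2) * (1 / (k : ℝ)) =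
                  K * (1 / ((p : ℝ) ^ 2 * k)) := by
                field_simp
              rw [e]
              apply mul_le_mul_of_nonneg_left _ (Nat.cast_nonneg K)
              apply one_div_le_one_div_of_le (by positivity)
              nlinarith
          _ = (K * (1 / (p : ℝ) ^ 2)) * ∑ k ∈ Ks p (Y / p), (1 : ℝ) / k := by
              rw [Finset.mul_sum]
          _ ≤ _ := by
              apply mul_le_mul_of_nonneg_left _ (by positivity)
              exact Ks_sum hcop (by omega) le_rfl hYl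
      · rw [Finset.sum_const, nsmul_eq_mul, mul_one]
        by_cases hY2 : 2 ≤ Y / p
        · rw [if_pos hY2]
          have h := Ks_card hcop (Y / p)
          have h' : (210 : ℝ) * (Ks p (Y / p)).card ≤ 48 * ((Y / p : ℕ) : ℝ) + 426 := by
            exact_mod_cast h
          linarith
        · rw [if_neg hY2, Ks_empty hcop (by omega)]
          push_cast
          positivity
    have a3 : ∑ r ∈ Rs (Y / p), (((K / (p ^ 2 * r) : ℕ) : ℝ) + 1) ≤
        (K * (1 / (p : ℝ) ^ 2)) * (1.4621 + 8 / 35 * (Real.log Y - 10)) +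
          (53 / 35 + 8 / 35 * (Y * (1 / (p : ℝ)))) := by
      rw [Finset.sum_add_distrib]
      apply add_le_add
      · calc ∑ r ∈ Rs (Y / p), ((K / (p ^ 2 * r) : ℕ) : ℝ)
            ≤ ∑ r ∈ Rs (Y / p), (K * (1 / (p : ℝ) ^ 2)) * ((1 : ℝ) / r) := by
              apply Finset.sum_le_sum
              intro r hr
              have hr' := Finset.mem_Ioc.1 (Finset.mem_filter.1 hr).1
              have hr0 : (0 : ℝ) < r := by exact_mod_cast hr'.1
              refine (natdiv_le K _).trans (le_of_eq ?_)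
              push_cast
              field_simp
          _ = (K * (1 / (p : ℝ) ^ 2)) * ∑ r ∈ Rs (Y / p), (1 : ℝ) / r := by
              rw [Finset.mul_sum]
          _ ≤ _ := by
              apply mul_le_mul_of_nonneg_left _ (by positivity)
              exact Rs_sum (p := p) (by omega) le_rfl hYl
      · rw [Finset.sum_const, nsmul_eq_mul, mul_one]
        have h := Rs_card (Y / p)
        have h' : (210 : ℝ) * (Rs (Y / p)).card ≤ 48 * ((Y / p : ℕ) : ℝ) + 318 := by
          exact_mod_cast h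
        linarith
    have hH : 1 + (1.6471 + 8 / 35 * (Real.log Y - 10)) +
        (1.4621 + 8 / 35 * (Real.log Y - 10)) ≤ H Y := by
      unfold H
      linarith
    have hK0 : 0 ≤ (K : ℝ) * (1 / (p : ℝ) ^ 2) := by positivity
    have hH' := mul_le_mul_of_nonneg_left hH hK0
    have e1 : (K : ℝ) * H Y * (1 / (p : ℝ) ^ 2) = (K : ℝ) * (1 / (p : ℝ) ^ 2) * H Y := by ring
    rw [e1]
    linarith
  refine (Finset.sum_le_sum h2).trans ?_
  rw [Finset.sum_add_distrib, ← Finset.mul_sum, Finset.sum_add_distrib, ← Finset.mul_sum,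
    Finset.sum_add_distrib, Finset.sum_add_distrib, ← Finset.sum_filter]
  simp only [Finset.sum_const, nsmul_eq_mul]
  have hN := Pr_card (show 7 ≤ z by omega) Y
  have hN2 := Pr_card2 (show 7 ≤ z by omega) Y
  have hN' : (210 : ℝ) * (Pr z Y).card ≤ 48 * Y + 318 := by exact_mod_cast hN
  have hN2' : (210 : ℝ) * ((Pr z Y).filter (fun p => 2 ≤ Y / p)).card ≤ 24 * Y + 318 := by
    have h3 : 48 * (Y / 2) ≤ 24 * Y := by omega
    have h4 : 210 * ((Pr z Y).filter (fun p => 2 ≤ Y / p)).card ≤ 24 * Y + 318 := by omega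
    exact_mod_cast h4
  linarith

end Pool.Agent.MP_2543de_nt.Full
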