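import Pool.Agent.Lib.MP_2543de_nt.Basic

namespace Pool.Agent.MP_2543de_nt.Full

open Finset

/-- the set of the first members of the pairs -/
def pairSet (n : ℕ) : Finset ℕ :=
  (Finset.Ioo (n ^ 3) ((n + 1) ^ 3)).filter (fun m => m + 4 < (n + 1) ^ 3 ∧ IsCyc m ∧
    IsCyc (m + 4) ∧ ¬ IsCyc (m + 1) ∧ ¬ IsCyc (m + 2) ∧ ¬ IsCyc (m + 3))

lemma cousinCount_eq (n : ℕ) : cousinCount n = (pairSet n).card := by
  classical
  apply le_antisymm
  · unfold cousinCount
    set T : Set ℕ := {j : ℕ | n ^ 3 < cyc j ∧ cyc (j + 1) < (n + 1) ^ 3 ∧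
      cyc (j + 1) = cyc j + 4} with hT
    have hmono : StrictMono cyc := Nat.nth_strictMono infinite_isCyc
    have hcyc : ∀ j, IsCyc (cyc j) := fun j => Nat.nth_mem_of_infinite infinite_isCyc j
    have hsub : cyc '' T ⊆ (pairSet n : Set ℕ) := by
      rintro m ⟨j, ⟨h1, h2, h3⟩, rfl⟩
      have hgap : ∀ m, cyc j < m → m < cyc (j + 1) → ¬ IsCyc m := by
        intro m ha hb hm
        have e : cyc (Nat.count IsCyc m) = m := Nat.nth_count hm
        rw [← e] at ha hb
        have h4 := hmono.lt_iff_lt.1 ha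
        have h5 := hmono.lt_iff_lt.1 hb
        omega
      simp only [pairSet, Finset.coe_filter, Finset.mem_Ioo, Set.mem_ofPred_eq]
      refine ⟨⟨h1, by omega⟩, by omega, hcyc j, ?_, ?_, ?_, ?_⟩
      · rw [← h3]; exact hcyc (j + 1)
      · exact hgap _ (by omega) (by omega)
      · exact hgap _ (by omega) (by omega)
      · exact hgap _ (by omega) (by omega)
    have h1 : T.ncard = (cyc '' T).ncard := (Set.ncard_image_of_injective T hmono.injective).symm
    rw [h1, ← Set.ncard_coe_finset]
    exact Set.ncard_le_ncard hsub (Finset.finite_toSet _)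
  · apply card_le_cousinCount
    intro m hm
    unfold pairSet at hm
    rw [Finset.mem_filter, Finset.mem_Ioo] at hm
    obtain ⟨⟨h1, _⟩, h2, h3, h4, h5, h6, h7⟩ := hm
    exact ⟨h1, h2, h3, h4, h5, h6, h7⟩

lemma one_le_of_pair {n : ℕ} (m : ℕ) (h1 : n ^ 3 < m) (h2 : m + 4 < (n + 1) ^ 3)
    (h : IsCyc m ∧ IsCyc (m + 4) ∧ ¬ IsCyc (m + 1) ∧ ¬ IsCyc (m + 2) ∧ ¬ IsCyc (m + 3)) :
    1 ≤ cousinCount n := by
  have := card_le_cousinCount (n := n) {m} (by
    intro x hx
    rw [Finset.mem_singleton] at hx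
    subst hx
    exact ⟨h1, h2, h⟩)
  simpa using this

lemma count_one : cousinCount 1 = 0 := by
  rw [cousinCount_eq]; decide +kernel

lemma small_cases (n : ℕ) (h2 : 2 ≤ n) (h13 : n < 13) : 1 ≤ cousinCount n := by
  interval_cases n
  · exact one_le_of_pair 19 (by norm_num) (by norm_num) (by decide +kernel)
  · exact one_le_of_pair 43 (by norm_num) (by norm_num) (by decide +kernel)
  · exact one_le_of_pair 79 (by norm_num) (by norm_num) (by decide +kernel)
  · exact one_le_of_pair 133 (by norm_num) (by norm_num) (by decide +kernel)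
  · exact one_le_of_pair 223 (by norm_num) (by norm_num) (by decide +kernel)
  · exact one_le_of_pair 349 (by norm_num) (by norm_num) (by decide +kernel)
  · exact one_le_of_pair 547 (by norm_num) (by norm_num) (by decide +kernel)
  · exact one_le_of_pair 745 (by norm_num) (by norm_num) (by decide +kernel)
  · exact one_le_of_pair 1087 (by norm_num) (by norm_num) (by decide +kernel)
  · exact one_le_of_pair 1429 (by norm_num) (by norm_num) (by decide +kernel)
  · exact one_le_of_pair 1735 (by norm_num) (by norm_num) (by decide +kernel)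

end Pool.Agent.MP_2543de_nt.Full
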